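import Mathlib

/-!
# A finite energy invariant bond percolation on `ℤ^d` with critical value one

For every `d ≥ 2` we build an automorphism invariant bond percolation on `ℤ^d` with finite energy,
which percolates almost surely and whose `p`-thinning has no infinite cluster for any `p < 1`.

Construction. Let `s` be Haar distributed in `(ℤ_3)^d`. For an edge `e = {x, y}` in direction `i`
put `z = x + y - 2 s ∈ (ℤ_3)^d` (twice the position of the midpoint relative to `s`). The edge is a
skeleton edge when `‖z_j‖ ≤ ‖z_i‖` for all `j`. Given `s`, every edge is independently flipped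
(relative to the skeleton) with probability `(∏_j ‖z_j‖)^(d+1) / 2`. Consecutive centres of the
triadic blocks around the origin are joined by skeleton paths, of which only finitely many are
flipped; and each block boundary is crossed by at most `2 d` skeleton edges, which kills the
infinite cluster after thinning.
-/

open MeasureTheory Filter ProbabilityTheory

namespace Pool.Agent.Results.MP_cc1c4a_pr.FiniteEnergyPcOne

/-- The nearest-neighbour graph on `ℤ^d`: two points are adjacent when their
(squared) Euclidean distance is `1`. -/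
def lattice (d : ℕ) : SimpleGraph (Fin d → ℤ) where
  Adj x y := ∑ i, (x i - y i) ^ 2 = 1
  symm := ⟨fun x y h => by
    rw [← h]; exact Finset.sum_congr rfl fun i _ => by ring⟩
  loopless := ⟨fun x h => by simp at h⟩

/-- The edge set of `ℤ^d`. -/
abbrev Edge (d : ℕ) : Type := (lattice d).edgeSet

/-- A bond configuration: `ω e = true` means that the edge `e` is open. -/
abbrev Config (d : ℕ) : Type := Edge d → Bool

/-- The subgraph of open edges. -/
def openGraph {d : ℕ} (ω : Config d) : SimpleGraph (Fin d → ℤ) where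
  Adj x y := ∃ h : (lattice d).Adj x y, ω ⟨s(x, y), h⟩ = true
  symm := ⟨fun x y h => by
    obtain ⟨h, hω⟩ := h
    refine ⟨h.symm, ?_⟩
    have : (⟨s(y, x), h.symm⟩ : Edge d) = ⟨s(x, y), h⟩ := Subtype.ext Sym2.eq_swap
    rw [this]; exact hω⟩
  loopless := ⟨fun x h => (lattice d).loopless.irrefl x h.1⟩

/-- The configuration has an infinite open cluster. -/
def HasInfiniteCluster {d : ℕ} (ω : Config d) : Prop :=
  ∃ C : (openGraph ω).ConnectedComponent, C.supp.Infinite

/-- Invariance of the law `μ` under every graph automorphism of `ℤ^d`. -/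
def IsInvariant {d : ℕ} (μ : Measure (Config d)) : Prop :=
  ∀ φ : lattice d ≃g lattice d, μ.map (fun ω e => ω (φ.mapEdgeSet e)) = μ

/-- The sigma-algebra generated by the states of all edges other than `e`. -/
@[reducible] def otherEdges {d : ℕ} (e : Edge d) : MeasurableSpace (Config d) :=
  MeasurableSpace.comap (fun (ω : Config d) (f : {f : Edge d // f ≠ e}) => ω f) inferInstance

/-- Finite energy: for every edge `e`, almost surely the conditional probability that `e` is open
given the states of all the other edges is strictly between `0` and `1`. -/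
def HasFiniteEnergy {d : ℕ} (μ : Measure (Config d)) : Prop :=
  ∀ e : Edge d, ∀ᵐ ω ∂μ,
    0 < (μ[Set.indicator {ω : Config d | ω e = true} (fun _ => (1 : ℝ)) | otherEdges e]) ω ∧
    (μ[Set.indicator {ω : Config d | ω e = true} (fun _ => (1 : ℝ)) | otherEdges e]) ω < 1

/-- Almost surely there is an infinite open cluster. -/
def Percolates {d : ℕ} (μ : Measure (Config d)) : Prop :=
  ∀ᵐ ω ∂μ, HasInfiniteCluster ω

/-- The `p`-thinning: each open edge is kept with probability `p`, independently of everything. -/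
noncomputable def thinning {d : ℕ} (μ : Measure (Config d)) (p : unitInterval) :
    Measure (Config d) :=
  (μ.prod (Measure.infinitePi fun _ : Edge d =>
    ProbabilityTheory.bernoulliMeasure true false p)).map (fun x e => x.1 e && x.2 e)

/-- `p_c`: the supremum of the `p ∈ [0,1]` for which the `p`-thinning has almost surely no
infinite cluster. -/
noncomputable def pc {d : ℕ} (μ : Measure (Config d)) : ℝ :=
  sSup {p : ℝ | ∃ h : p ∈ unitInterval,
    ∀ᵐ ω ∂(thinning μ ⟨p, h⟩), ¬ HasInfiniteCluster ω}

variable {d : ℕ}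

lemma unit_iff (u : Fin d → ℤ) :
    ∑ i, u i ^ 2 = 1 ↔ ∃ i, (u i = 1 ∨ u i = -1) ∧ ∀ j, j ≠ i → u j = 0 := by
  classical
  constructor
  · intro h
    have hex : ∃ i, u i ≠ 0 := by
      by_contra hcon
      push Not at hcon
      simp [hcon] at h
    obtain ⟨i, hi⟩ := hex
    have hsplit := Finset.add_sum_erase Finset.univ (fun i => u i ^ 2) (Finset.mem_univ i)
    have hnn : 0 ≤ ∑ j ∈ Finset.univ.erase i, u j ^ 2 :=
      Finset.sum_nonneg fun j _ => sq_nonneg _
    have h1 : 1 ≤ u i ^ 2 := by
      have : 0 < u i ^ 2 := by positivity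
      omega
    have h2 : u i ^ 2 = 1 := by
      linarith
    have h3 : ∑ j ∈ Finset.univ.erase i, u j ^ 2 = 0 := by
      linarith
    refine ⟨i, mul_self_eq_one_iff.1 (by rw [← sq]; exact h2), ?_⟩
    intro j hj
    have := (Finset.sum_eq_zero_iff_of_nonneg (fun j _ => sq_nonneg (u j))).1 h3 j
      (Finset.mem_erase.2 ⟨hj, Finset.mem_univ j⟩)
    exact pow_eq_zero_iff (two_ne_zero) |>.1 this
  · rintro ⟨i, hi, h0⟩
    rw [Finset.sum_eq_single i]
    · rcases hi with h | h <;> simp [h]
    · intro j _ hj; simp [h0 j hj]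
    · intro h; exact absurd (Finset.mem_univ i) h

/-- unit vectors -/
def IsUnitVec (u : Fin d → ℤ) : Prop := ∑ i, u i ^ 2 = 1

lemma adj_iff_sub (x y : Fin d → ℤ) : (lattice d).Adj x y ↔ IsUnitVec (y - x) := by
  unfold IsUnitVec lattice
  simp only [Pi.sub_apply]
  rw [Finset.sum_congr rfl fun i _ => (by ring : (x i - y i) ^ 2 = (y i - x i) ^ 2)]

lemma IsUnitVec.neg {u : Fin d → ℤ} (h : IsUnitVec u) : IsUnitVec (-u) := by
  unfold IsUnitVec at *
  simpa using h

lemma IsUnitVec.ne_zero {u : Fin d → ℤ} (h : IsUnitVec u) : u ≠ 0 := by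
  rintro rfl
  simp [IsUnitVec] at h

lemma isUnitVec_single (i : Fin d) : IsUnitVec (Pi.single i 1 : Fin d → ℤ) := by
  classical
  rw [IsUnitVec, unit_iff]
  exact ⟨i, Or.inl (by simp), fun j hj => by simp [hj]⟩

lemma adj_add {x u : Fin d → ℤ} (h : IsUnitVec u) : (lattice d).Adj x (x + u) := by
  rw [adj_iff_sub]; simpa using h

section
variable (φ : lattice d ≃g lattice d)

lemma unit_map {x u : Fin d → ℤ} (h : IsUnitVec u) : IsUnitVec (φ (x + u) - φ x) := by
  rw [← adj_iff_sub]
  exact φ.map_rel_iff.2 (adj_add h)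

lemma opp_of_unit {v u : Fin d → ℤ} (hu : IsUnitVec u) (h1 : IsUnitVec (v - u))
    (h2 : IsUnitVec (v + u)) : v = 0 := by
  unfold IsUnitVec at *
  simp only [Pi.sub_apply, Pi.add_apply] at h1 h2
  have key : 2 * ∑ i, v i ^ 2 = 0 := by
    have : ∑ i, (v i - u i) ^ 2 + ∑ i, (v i + u i) ^ 2
        = 2 * ∑ i, v i ^ 2 + 2 * ∑ i, u i ^ 2 := by
      rw [← Finset.sum_add_distrib, Finset.mul_sum, Finset.mul_sum, ← Finset.sum_add_distrib]
      exact Finset.sum_congr rfl fun i _ => by ring
    rw [h1, h2, hu] at this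
    linarith
  have key2 : ∑ i, v i ^ 2 = 0 := by linarith
  funext i
  have := (Finset.sum_eq_zero_iff_of_nonneg (fun j _ => sq_nonneg (v j))).1 key2 i
    (Finset.mem_univ i)
  exact pow_eq_zero_iff (two_ne_zero) |>.1 this

lemma map_opp (x u : Fin d → ℤ) (hu : IsUnitVec u) :
    φ (x + u) + φ (x - u) = φ x + φ x := by
  set a := φ (x + u) - φ x with ha
  set b := φ (x - u) - φ x with hb
  have hua : IsUnitVec a := unit_map φ hu
  have hub : IsUnitVec b := by
    have := unit_map φ (x := x) hu.neg
    simpa [hb, sub_eq_add_neg] using this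
  obtain ⟨q, hq⟩ := φ.surjective (φ x + a + b)
  have e1 : (lattice d).Adj (x + u) q := by
    rw [← φ.map_rel_iff, hq, adj_iff_sub]
    have : φ x + a + b - φ (x + u) = b := by rw [ha]; abel
    rwa [this]
  have e2 : (lattice d).Adj (x - u) q := by
    rw [← φ.map_rel_iff, hq, adj_iff_sub]
    have : φ x + a + b - φ (x - u) = a := by rw [hb]; abel
    rwa [this]
  rw [adj_iff_sub] at e1 e2
  have e3 : q - x = 0 := by
    apply opp_of_unit hu
    · have : q - x - u = q - (x + u) := by abel
      rwa [this]
    · have : q - x + u = q - (x - u) := by abel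
      rwa [this]
  have e4 : q = x := by simpa [sub_eq_zero] using e3
  rw [e4] at hq
  have e5 : a + b = 0 := by
    have : φ x + (a + b) = φ x := by rw [← add_assoc]; exact hq.symm
    simpa using this
  have : φ (x + u) + φ (x - u) = φ x + φ x + (a + b) := by rw [ha, hb]; abel
  rw [this, e5, add_zero]

lemma common_nbr {u w v : Fin d → ℤ} (hu : IsUnitVec u) (hw : IsUnitVec w) (h1 : w ≠ u)
    (h2 : w ≠ -u) (hv1 : IsUnitVec (v - u)) (hv2 : IsUnitVec (v - w)) : v = 0 ∨ v = u + w := by
  unfold IsUnitVec at *
  rw [unit_iff] at *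
  obtain ⟨i, hui, hu0⟩ := hu
  obtain ⟨j, hwj, hw0⟩ := hw
  obtain ⟨k, hk, hk0⟩ := hv1
  obtain ⟨l, hl, hl0⟩ := hv2
  simp only [Pi.sub_apply] at hk hk0 hl hl0
  have hij : i ≠ j := by
    rintro rfl
    rcases hui with h | h <;> rcases hwj with h' | h'
    · exact h1 (funext fun m => by
        by_cases hm : m = i
        · rw [hm, h, h']
        · rw [hu0 m hm, hw0 m hm])
    · exact h2 (funext fun m => by
        by_cases hm : m = i
        · simp [hm, h, h']
        · simp [hu0 m hm, hw0 m hm])
    · exact h2 (funext fun m => by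
        by_cases hm : m = i
        · simp [hm, h, h']
        · simp [hu0 m hm, hw0 m hm])
    · exact h1 (funext fun m => by
        by_cases hm : m = i
        · rw [hm, h, h']
        · rw [hu0 m hm, hw0 m hm])
  have hwi : w i = 0 := hw0 i hij
  have huj : u j = 0 := hu0 j hij.symm
  by_cases hki : k = i
  · left
    subst hki
    have hvj : v j = 0 := by
      have := hk0 j hij.symm
      omega
    have hlj : l = j := by
      by_contra hne
      have := hl0 j (Ne.symm hne)
      rw [hvj] at this
      omega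
    subst hlj
    funext m
    by_cases hm : m = k
    · have := hl0 k hij
      rw [hm]; simp only [Pi.zero_apply]; omega
    · have := hk0 m hm
      have := hu0 m hm
      simp only [Pi.zero_apply]; omega
  · right
    have hvi : v i = u i := by
      have := hk0 i (Ne.symm hki)
      omega
    have hli : l = i := by
      by_contra hne
      have := hl0 i (Ne.symm hne)
      omega
    subst hli
    funext m
    by_cases hm : m = l
    · rw [hm]; simp only [Pi.add_apply]; omega
    · have := hl0 m hm
      have := hu0 m hm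
      simp only [Pi.add_apply]; omega

lemma map_square (x u w : Fin d → ℤ) (hu : IsUnitVec u) (hw : IsUnitVec w) (h1 : w ≠ u)
    (h2 : w ≠ -u) : φ (x + u + w) = φ (x + u) + φ (x + w) - φ x := by
  set a := φ (x + u) - φ x with ha
  set b := φ (x + w) - φ x with hb
  have hua : IsUnitVec a := unit_map φ hu
  have hub : IsUnitVec b := unit_map φ hw
  obtain ⟨q, hq⟩ := φ.surjective (φ x + a + b)
  have e1 : (lattice d).Adj (x + u) q := by
    rw [← φ.map_rel_iff, hq, adj_iff_sub]
    have : φ x + a + b - φ (x + u) = b := by rw [ha]; abel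
    rwa [this]
  have e2 : (lattice d).Adj (x + w) q := by
    rw [← φ.map_rel_iff, hq, adj_iff_sub]
    have : φ x + a + b - φ (x + w) = a := by rw [hb]; abel
    rwa [this]
  rw [adj_iff_sub] at e1 e2
  have e3 : q - x = 0 ∨ q - x = u + w := by
    apply common_nbr hu hw h1 h2
    · have : q - x - u = q - (x + u) := by abel
      rwa [this]
    · have : q - x - w = q - (x + w) := by abel
      rwa [this]
  rcases e3 with e3 | e3
  · exfalso
    have e4 : q = x := by simpa [sub_eq_zero] using e3
    rw [e4] at hq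
    have e5 : a + b = 0 := by
      have : φ x + (a + b) = φ x := by rw [← add_assoc]; exact hq.symm
      simpa using this
    have e6 := map_opp φ x u hu
    have e7 : φ (x - u) = φ (x + w) := by
      have h7 : φ (x + w) = φ x + b := by rw [hb]; abel
      have h8 : φ (x + u) = φ x + a := by rw [ha]; abel
      have h9 : b = -a := by rw [eq_neg_iff_add_eq_zero, add_comm]; exact e5
      rw [h7, h9]
      rw [h8] at e6
      have : φ (x - u) = φ x + φ x - (φ x + a) := by rw [← e6]; abel
      rw [this]; abel
    have e8 := φ.injective e7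
    apply h2
    have : x + -u = x + w := by rw [← sub_eq_add_neg]; exact e8
    exact (add_left_cancel this).symm
  · have e4 : q = x + u + w := by
      have : q = x + (q - x) := by abel
      rw [this, e3]; abel
    rw [e4] at hq
    rw [hq, ha, hb]; abel

/-- Induction along unit steps. -/
lemma lattice_induction {P : (Fin d → ℤ) → Prop} (h0 : P 0)
    (hstep : ∀ x u, IsUnitVec u → P x → P (x + u)) : ∀ x, P x := by
  classical
  intro x
  induction hn : ∑ i, (x i).natAbs using Nat.strong_induction_on generalizing x with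
  | _ n ih =>
    by_cases hx : x = 0
    · rw [hx]; exact h0
    · obtain ⟨i, hi⟩ : ∃ i, x i ≠ 0 := by
        by_contra hcon
        push Not at hcon
        exact hx (funext hcon)
      set u : Fin d → ℤ := Pi.single i (Int.sign (x i)) with hu
      have hus : Int.sign (x i) = 1 ∨ Int.sign (x i) = -1 := by
        rcases lt_or_gt_of_ne hi with h | h
        · right; exact Int.sign_eq_neg_one_of_neg h
        · left; exact Int.sign_eq_one_of_pos h
      have huv : IsUnitVec u := by
        rw [IsUnitVec, unit_iff]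
        exact ⟨i, by simpa [hu] using hus, fun j hj => by simp [hu, hj]⟩
      have hlt : ∑ j, ((x - u) j).natAbs < n := by
        rw [← hn]
        apply Finset.sum_lt_sum
        · intro j _
          by_cases hj : j = i
          · subst hj
            simp only [hu, Pi.sub_apply, Pi.single_eq_same]
            rcases lt_or_gt_of_ne hi with h | h
            · rw [Int.sign_eq_neg_one_of_neg h]; omega
            · rw [Int.sign_eq_one_of_pos h]; omega
          · simp [hu, hj]
        · refine ⟨i, Finset.mem_univ i, ?_⟩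
          simp only [hu, Pi.sub_apply, Pi.single_eq_same]
          rcases lt_or_gt_of_ne hi with h | h
          · rw [Int.sign_eq_neg_one_of_neg h]; omega
          · rw [Int.sign_eq_one_of_pos h]; omega
      have := hstep (x - u) u huv (ih _ hlt (x - u) rfl)
      simpa using this

lemma map_diff (x u : Fin d → ℤ) (hu : IsUnitVec u) : φ (x + u) - φ x = φ u - φ 0 := by
  have main : ∀ x : Fin d → ℤ, ∀ u, IsUnitVec u → φ (x + u) - φ x = φ u - φ 0 := by
    apply lattice_induction
    · intro u _; simp
    · intro x w hw ih u hu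
      rw [← ih u hu]
      by_cases h1 : u = w
      · subst h1
        have := map_opp φ (x + u) u hu
        simp only [add_sub_cancel_right] at this
        rw [sub_eq_sub_iff_add_eq_add, this]
      · by_cases h2 : u = -w
        · subst h2
          have := map_opp φ x w hw
          have e : x + w + -w = x := by abel
          rw [e, sub_eq_sub_iff_add_eq_add, ← this, sub_eq_add_neg, add_comm]
        · have := map_square φ x w u hw hu h1 h2
          rw [this]; abel
  exact main x u hu

lemma map_neg_unit (u : Fin d → ℤ) (hu : IsUnitVec u) : φ (-u) - φ 0 = -(φ u - φ 0) := by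
  have := map_opp φ 0 u hu
  simp only [zero_add, zero_sub] at this
  have h : φ (-u) = φ 0 + φ 0 - φ u := by rw [← this]; abel
  rw [h]; abel

/-- Every automorphism of the lattice graph is a signed permutation followed by a translation. -/
theorem aut_classification :
    ∃ (σ : Equiv.Perm (Fin d)) (ε a : Fin d → ℤ), (∀ j, ε j = 1 ∨ ε j = -1) ∧
      ∀ x j, φ x j = a j + ε j * x (σ j) := by
  classical
  set D : Fin d → (Fin d → ℤ) := fun i => φ (Pi.single i 1) - φ 0 with hD
  have hDu : ∀ i, IsUnitVec (D i) := fun i => by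
    have := unit_map φ (x := 0) (isUnitVec_single i)
    simpa [hD] using this
  have hlin : ∀ x : Fin d → ℤ, φ x = φ 0 + ∑ i, x i • D i := by
    apply lattice_induction
    · simp
    · intro x w hw ih
      have h1 := map_diff φ x w hw
      have h2 : φ w - φ 0 = ∑ i, w i • D i := by
        obtain ⟨i, hi, hi0⟩ := (unit_iff w).1 hw
        rw [Finset.sum_eq_single i]
        · rcases hi with h | h
          · have : w = Pi.single i 1 := by
              funext j
              by_cases hj : j = i
              · subst hj; simp [h]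
              · simp [hi0 j hj, hj]
            rw [h, one_smul, hD, this]
          · have : w = -(Pi.single i 1) := by
              funext j
              by_cases hj : j = i
              · subst hj; simp [h]
              · simp [hi0 j hj, hj]
            rw [h, hD]
            simp only [neg_smul, one_smul]
            rw [this]
            exact map_neg_unit φ _ (isUnitVec_single i)
        · intro j _ hj; simp [hi0 j hj]
        · intro h; exact absurd (Finset.mem_univ i) h
      have h3 : φ (x + w) = φ x + (φ w - φ 0) := by rw [← h1]; abel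
      rw [h3, h2, ih, add_assoc, ← Finset.sum_add_distrib]
      congr 1
      exact Finset.sum_congr rfl fun i _ => by rw [Pi.add_apply, add_smul]
  choose τ hτ hτ0 using fun i => (unit_iff (D i)).1 (hDu i)
  have hinj : Function.Injective τ := by
    intro i j hij
    by_contra hne
    have hcase : D i = D j ∨ D i = -D j := by
      rcases hτ i with h | h <;> rcases hτ j with h' | h'
      · left; funext m
        by_cases hm : m = τ i
        · rw [hm, h]; rw [hij, h']
        · rw [hτ0 i m hm, hτ0 j m (hij ▸ hm)]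
      · right; funext m
        by_cases hm : m = τ i
        · rw [hm, h]; rw [hij, Pi.neg_apply, h']; simp
        · rw [hτ0 i m hm, Pi.neg_apply, hτ0 j m (hij ▸ hm)]; simp
      · right; funext m
        by_cases hm : m = τ i
        · rw [hm, h]; rw [hij, Pi.neg_apply, h']
        · rw [hτ0 i m hm, Pi.neg_apply, hτ0 j m (hij ▸ hm)]; simp
      · left; funext m
        by_cases hm : m = τ i
        · rw [hm, h]; rw [hij, h']
        · rw [hτ0 i m hm, hτ0 j m (hij ▸ hm)]
    rcases hcase with h | h
    · have : φ (Pi.single i 1) = φ (Pi.single j 1) := sub_left_injective h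
      have := congrFun (φ.injective this) i
      simp [hne] at this
    · have h' : φ (Pi.single i 1) - φ 0 = φ (-(Pi.single j 1)) - φ 0 := by
        rw [map_neg_unit φ _ (isUnitVec_single j)]; exact h
      have : φ (Pi.single i 1) = φ (-(Pi.single j 1)) := sub_left_injective h'
      have := congrFun (φ.injective this) i
      simp [hne] at this
  have hbij : Function.Bijective τ := Finite.injective_iff_bijective.1 hinj
  set T : Equiv.Perm (Fin d) := Equiv.ofBijective τ hbij with hT
  refine ⟨T.symm, fun j => D (T.symm j) j, φ 0, ?_, ?_⟩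
  · intro j
    have h := hτ (T.symm j)
    have h' : τ (T.symm j) = j := T.apply_symm_apply j
    rw [h'] at h
    exact h
  · intro x j
    rw [hlin x, Pi.add_apply, Finset.sum_apply, Finset.sum_eq_single (T.symm j)]
    · simp only [Pi.smul_apply, smul_eq_mul]; ring
    · intro i _ hi
      have : j ≠ τ i := by
        intro h
        apply hi
        rw [h]
        exact (T.symm_apply_apply i).symm
      simp [hτ0 i j this]
    · intro h; exact absurd (Finset.mem_univ _) h

end

/-- random shifts: points of `(ℤ_3)^d` -/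
abbrev Shift (d : ℕ) : Type := Fin d → ℤ_[3]

/-- `R k = 3^{-k}` -/
noncomputable def R (k : ℕ) : ℝ := ((3 : ℕ) : ℝ) ^ (-(k : ℤ))

lemma R_pos (k : ℕ) : 0 < R k := by unfold R; positivity

lemma R_eq (k : ℕ) : R k = (1 / 3 : ℝ) ^ k := by
  unfold R
  rw [zpow_neg, zpow_natCast, one_div, inv_pow]
  norm_num

lemma R_tendsto : Tendsto R atTop (nhds 0) := by
  have : R = fun k => (1 / 3 : ℝ) ^ k := funext R_eq
  rw [this]
  exact tendsto_pow_atTop_nhds_zero_of_lt_one (by norm_num) (by norm_num)

/-- sum of the endpoints, `j`-th coordinate -/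
def mid (e : Sym2 (Fin d → ℤ)) (j : Fin d) : ℤ :=
  Sym2.lift ⟨fun x y => x j + y j, fun x y => add_comm _ _⟩ e

/-- the edge goes in direction `i` -/
def dir (e : Sym2 (Fin d → ℤ)) (i : Fin d) : Prop :=
  Sym2.lift ⟨fun x y => x i ≠ y i, fun _ _ => by simp only [ne_comm]⟩ e

@[simp] lemma mid_mk (x y : Fin d → ℤ) (j : Fin d) : mid s(x, y) j = x j + y j := rfl
@[simp] lemma dir_mk (x y : Fin d → ℤ) (j : Fin d) : dir s(x, y) j ↔ x j ≠ y j := Iff.rfl

/-- 3-adic position of the midpoint -/
noncomputable def z (s : Shift d) (e : Sym2 (Fin d → ℤ)) (j : Fin d) : ℤ_[3] :=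
  (mid e j : ℤ_[3]) - 2 * s j

/-- skeleton edges -/
def Skel (s : Shift d) (e : Sym2 (Fin d → ℤ)) : Prop :=
  ∀ i, dir e i → ∀ j, ‖z s e j‖ ≤ ‖z s e i‖

/-- flip probability -/
noncomputable def eps (s : Shift d) (e : Sym2 (Fin d → ℤ)) : ℝ :=
  (1 / 2) * (∏ j, ‖z s e j‖) ^ (d + 1)

/-- good shifts -/
def Good (s : Shift d) : Prop := ∀ j, ∀ n : ℤ, (n : ℤ_[3]) - 2 * s j ≠ 0

/-- the centre of the level-`k` block containing the origin -/
noncomputable def c (s : Shift d) (k : ℕ) (j : Fin d) : ℤ :=
  (PadicInt.toZModPow k (s j)).valMinAbs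

lemma c_bound (s : Shift d) (k : ℕ) (j : Fin d) : 2 * |c s k j| < 3 ^ k := by
  have hne : NeZero (3 ^ k) := ⟨by positivity⟩
  have h := ZMod.valMinAbs_mem_Ioc (PadicInt.toZModPow k (s j))
  rw [Set.mem_Ioc] at h
  obtain ⟨h1, h2⟩ := h
  have hodd : Odd ((3 : ℤ) ^ k) := Odd.pow (by decide)
  obtain ⟨r, hr⟩ := hodd
  have e : ((3 ^ k : ℕ) : ℤ) = 2 * r + 1 := by rw [← hr]; push_cast; rfl
  rw [e] at h1 h2
  rw [hr]
  unfold c
  rcases abs_cases (PadicInt.toZModPow k (s j)).valMinAbs with h | h <;> omega

lemma c_close (s : Shift d) (k : ℕ) (j : Fin d) : ‖(c s k j : ℤ_[3]) - s j‖ ≤ R k := by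
  unfold R
  rw [PadicInt.norm_le_pow_iff_mem_span_pow, ← PadicInt.ker_toZModPow, RingHom.mem_ker, map_sub]
  rw [map_intCast, c, ZMod.coe_valMinAbs, sub_self]

lemma norm_int_le (m : ℤ) (k : ℕ) : ‖(m : ℤ_[3])‖ ≤ R k ↔ (3 ^ k : ℤ) ∣ m := by
  unfold R
  exact PadicInt.norm_int_le_pow_iff_dvd

lemma norm_le_of_sub {a b : ℤ_[3]} {r : ℝ} (h1 : ‖a‖ ≤ r) (h2 : ‖b - a‖ ≤ r) : ‖b‖ ≤ r := by
  have : b = (b - a) + a := by ring
  rw [this]
  exact (PadicInt.nonarchimedean _ _).trans (max_le h2 h1)

lemma norm_two_mul (a : ℤ_[3]) : ‖2 * a‖ = ‖a‖ := by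
  rw [norm_mul]
  have : ‖(2 : ℤ_[3])‖ = 1 := by
    have h := PadicInt.norm_intCast_eq_one_iff (p := 3) (z := 2)
    have h2 : ‖((2 : ℤ) : ℤ_[3])‖ = 1 := h.2 (by decide)
    simpa using h2
  rw [this, one_mul]

lemma norm_z_iff (s : Shift d) (k : ℕ) (j : Fin d) (m : ℤ) :
    ‖(m : ℤ_[3]) - 2 * s j‖ ≤ R k ↔ (3 ^ k : ℤ) ∣ m - 2 * c s k j := by
  rw [← norm_int_le]
  have hc : ‖2 * ((c s k j : ℤ_[3]) - s j)‖ ≤ R k := by
    rw [norm_two_mul]; exact c_close s k j
  constructor
  · intro h
    apply norm_le_of_sub h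
    push_cast
    have : ((m : ℤ_[3]) - 2 * (c s k j : ℤ_[3])) - ((m : ℤ_[3]) - 2 * s j)
        = -(2 * ((c s k j : ℤ_[3]) - s j)) := by ring
    rw [this, norm_neg]; exact hc
  · intro h
    apply norm_le_of_sub h
    push_cast
    have : ((m : ℤ_[3]) - 2 * s j) - ((m : ℤ_[3]) - 2 * (c s k j : ℤ_[3]))
        = (2 * ((c s k j : ℤ_[3]) - s j)) := by ring
    rw [this]; exact hc

lemma norm_z_iff' (s : Shift d) (k : ℕ) (e : Sym2 (Fin d → ℤ)) (j : Fin d) :
    ‖z s e j‖ ≤ R k ↔ (3 ^ k : ℤ) ∣ mid e j - 2 * c s k j := norm_z_iff s k j _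

/-- if `z_i` is not divisible by `3^{k+1}` its norm is at least `3^{-k}` -/
lemma le_norm_of_not (a : ℤ_[3]) (k : ℕ) (h : ¬ ‖a‖ ≤ R (k + 1)) : R k ≤ ‖a‖ := by
  unfold R at *
  rw [PadicInt.norm_le_pow_iff_norm_lt_pow_add_one] at h
  have e : (-((k + 1 : ℕ) : ℤ) + 1) = -(k : ℤ) := by push_cast; ring
  rw [e] at h
  exact not_lt.1 h

/-- the level-`k` block -/
def InB (s : Shift d) (k : ℕ) (x : Fin d → ℤ) : Prop := ∀ j, 2 * |x j - c s k j| < 3 ^ k

lemma InB.abs_lt {s : Shift d} {k : ℕ} {x : Fin d → ℤ} (h : InB s k x) (j : Fin d) :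
    |x j| < 3 ^ k := by
  have h1 := h j
  have h2 := c_bound s k j
  have h3 : |x j| ≤ |x j - c s k j| + |c s k j| := by
    have := abs_add_le (x j - c s k j) (c s k j)
    simpa using this
  omega

lemma finite_InB (s : Shift d) (k : ℕ) : {x : Fin d → ℤ | InB s k x}.Finite := by
  apply Set.Finite.subset (Set.Finite.pi (fun _ : Fin d => Set.finite_Icc (-(3 : ℤ) ^ k) (3 ^ k)))
  intro x hx
  rw [Set.mem_pi]
  intro j _
  have := InB.abs_lt hx j
  rw [abs_lt] at this
  exact ⟨this.1.le, this.2.le⟩

lemma eventually_not_norm_le {a : ℤ_[3]} (h : a ≠ 0) : ∀ᶠ k in atTop, ¬ ‖a‖ ≤ R k := by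
  have h1 : 0 < ‖a‖ := norm_pos_iff.2 h
  filter_upwards [(tendsto_order.1 R_tendsto).2 _ h1] with k hk
  exact not_le.2 hk

lemma exhaustion {s : Shift d} (hs : Good s) (x : Fin d → ℤ) : ∀ᶠ k in atTop, InB s k x := by
  unfold InB
  rw [Filter.eventually_all]
  intro j
  have h1 : ∀ w ∈ Finset.Icc (-(2 * |x j|)) (2 * |x j|),
      ∀ᶠ k in atTop, ¬ ‖(w : ℤ_[3]) - 2 * s j‖ ≤ R k := by
    intro w _
    exact eventually_not_norm_le (hs j w)
  rw [← Filter.eventually_all_finset] at h1
  filter_upwards [h1] with k hk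
  by_contra hcon
  push Not at hcon
  have hc := c_bound s k j
  have h3 : |x j - c s k j| ≤ |x j| + |c s k j| := abs_sub _ _
  -- 3^k - 2|x| ≤ 2|c| < 3^k
  set n : ℤ := 3 ^ k with hn
  rcases abs_cases (c s k j) with ⟨h4, _⟩ | ⟨h4, _⟩
  · have hw := hk (2 * c s k j - n) (by
      rw [Finset.mem_Icc]; constructor <;> omega)
    apply hw
    rw [norm_z_iff]
    have : 2 * c s k j - n - 2 * c s k j = -n := by ring
    rw [this, hn]; simp
  · have hw := hk (2 * c s k j + n) (by
      rw [Finset.mem_Icc]; constructor <;> omega)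
    apply hw
    rw [norm_z_iff]
    have : 2 * c s k j + n - 2 * c s k j = n := by ring
    rw [this, hn]

lemma c_leaves {s : Shift d} (hs : Good s) (hd : 0 < d) (y : Fin d → ℤ) :
    ∀ᶠ k in atTop, c s k ≠ y := by
  have h0 : ((y ⟨0, hd⟩ : ℤ) : ℤ_[3]) - s ⟨0, hd⟩ ≠ 0 := by
    intro h
    apply hs ⟨0, hd⟩ (2 * y ⟨0, hd⟩)
    push_cast
    rw [← mul_sub, h, mul_zero]
  filter_upwards [eventually_not_norm_le h0] with k hk
  intro h
  apply hk
  rw [← h]
  exact c_close s k _

/-- half side length of a level-`k` block -/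
def hr (k : ℕ) : ℤ := (3 ^ k - 1) / 2

lemma hr_spec (k : ℕ) : (3 : ℤ) ^ k = 2 * hr k + 1 := by
  have hodd : Odd ((3 : ℤ) ^ k) := Odd.pow (by decide)
  obtain ⟨r, hr'⟩ := hodd
  unfold hr
  omega

lemma hr_nonneg (k : ℕ) : 0 ≤ hr k := by
  have h1 := hr_spec k
  have h2 : (1 : ℤ) ≤ 3 ^ k := one_le_pow₀ (by norm_num)
  omega

/-- adjacency in coordinates -/
lemma adj_iff_coord (x y : Fin d → ℤ) : (lattice d).Adj x y ↔
    ∃ i, (y i = x i + 1 ∨ y i = x i - 1) ∧ ∀ j, j ≠ i → y j = x j := by
  rw [adj_iff_sub, IsUnitVec, unit_iff]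
  simp only [Pi.sub_apply]
  constructor
  · rintro ⟨i, hi, h0⟩
    exact ⟨i, by omega, fun j hj => by have := h0 j hj; omega⟩
  · rintro ⟨i, hi, h0⟩
    exact ⟨i, by omega, fun j hj => by have := h0 j hj; omega⟩

/-- inner endpoint of the distinguished boundary edge -/
noncomputable def inner (s : Shift d) (k : ℕ) (i : Fin d) (b : Bool) : Fin d → ℤ :=
  Function.update (c s k) i (c s k i + if b then hr k else - hr k)

/-- outer endpoint of the distinguished boundary edge -/
noncomputable def outer (s : Shift d) (k : ℕ) (i : Fin d) (b : Bool) : Fin d → ℤ :=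
  Function.update (c s k) i (c s k i + if b then hr k + 1 else - (hr k + 1))

lemma adj_inner_outer (s : Shift d) (k : ℕ) (i : Fin d) (b : Bool) :
    (lattice d).Adj (inner s k i b) (outer s k i b) := by
  rw [adj_iff_coord]
  refine ⟨i, ?_, ?_⟩
  · simp only [inner, outer, Function.update_self]
    cases b <;> simp <;> omega
  · intro j hj
    simp [inner, outer, hj]

/-- distinguished boundary edges -/
noncomputable def bdEdge (s : Shift d) (k : ℕ) (p : Fin d × Bool) : Edge d :=
  ⟨s(inner s k p.1 p.2, outer s k p.1 p.2), adj_inner_outer s k p.1 p.2⟩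

open Classical in
/-- the set of distinguished boundary edges of the level-`k` block -/
noncomputable def F (s : Shift d) (k : ℕ) : Finset (Edge d) :=
  (Finset.univ : Finset (Fin d × Bool)).image (bdEdge s k)

lemma card_F (s : Shift d) (k : ℕ) : (F s k).card ≤ 2 * d := by
  classical
  refine (Finset.card_image_le).trans ?_
  simp [Fintype.card_prod, mul_comm]

lemma outer_not_InB (s : Shift d) (k : ℕ) (i : Fin d) (b : Bool) :
    ¬ InB s k (outer s k i b) := by
  intro h
  have := h i
  simp only [outer, Function.update_self] at this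
  rw [hr_spec] at this
  have h0 := hr_nonneg k
  cases b
  · simp only [Bool.false_eq_true, if_false, add_sub_cancel_left] at this
    rw [abs_neg, abs_of_nonneg (by omega)] at this
    omega
  · simp only [if_true, add_sub_cancel_left] at this
    rw [abs_of_nonneg (by omega)] at this
    omega

lemma F_escapes {s : Shift d} (hs : Good s) (e : Edge d) : ∀ᶠ k in atTop, e ∉ F s k := by
  classical
  obtain ⟨e, he⟩ := e
  induction e using Sym2.ind with
  | _ x y =>
    filter_upwards [exhaustion hs x, exhaustion hs y] with k hx hy hmem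
    rw [F, Finset.mem_image] at hmem
    obtain ⟨⟨i, b⟩, _, hp⟩ := hmem
    have h1 : s(inner s k i b, outer s k i b) = s(x, y) := congrArg Subtype.val hp
    have h2 : outer s k i b ∈ s(x, y) := by rw [← h1]; exact Sym2.mem_mk_right _ _
    rw [Sym2.mem_iff] at h2
    rcases h2 with h2 | h2
    · exact outer_not_InB s k i b (h2 ▸ hx)
    · exact outer_not_InB s k i b (h2 ▸ hy)

/-- A skeleton edge crossing the boundary of the level-`k` block is one of the distinguished
edges; and any crossing edge has its directional coordinate divisible by `3^k`. -/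
lemma crossing {s : Shift d} {k : ℕ} {x y : Fin d → ℤ} (hadj : (lattice d).Adj x y)
    (hx : InB s k x) (hy : ¬ InB s k y) :
    ∃ i, dir s(x, y) i ∧ ‖z s s(x, y) i‖ ≤ R k ∧
      (Skel s s(x, y) → (⟨s(x, y), hadj⟩ : Edge d) ∈ F s k) := by
  classical
  obtain ⟨i, hi, h0⟩ := (adj_iff_coord x y).1 hadj
  have hyi : 3 ^ k ≤ 2 * |y i - c s k i| := by
    by_contra hcon
    apply hy
    intro j
    by_cases hj : j = i
    · subst hj; exact not_le.1 hcon
    · rw [h0 j hj]; exact hx j
  have hxi := hx i
  have hk := hr_spec k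
  have h0r := hr_nonneg k
  rw [hk] at hyi hxi
  have hcases : (x i = c s k i + hr k ∧ y i = c s k i + (hr k + 1)) ∨
      (x i = c s k i - hr k ∧ y i = c s k i - (hr k + 1)) := by
    rcases abs_cases (x i - c s k i) with ⟨h1, _⟩ | ⟨h1, _⟩ <;>
    rcases abs_cases (y i - c s k i) with ⟨h2, _⟩ | ⟨h2, _⟩ <;>
    rcases hi with h | h <;> rw [h1] at hxi <;> rw [h2] at hyi <;> omega
  have hzi : ‖z s s(x, y) i‖ ≤ R k := by
    rw [norm_z_iff', mid_mk, hk]
    rcases hcases with ⟨h1, h2⟩ | ⟨h1, h2⟩
    · exact ⟨1, by rw [h1, h2]; ring⟩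
    · exact ⟨-1, by rw [h1, h2]; ring⟩
  have hdir : dir s(x, y) i := by
    rw [dir_mk]; omega
  refine ⟨i, hdir, hzi, ?_⟩
  intro hskel
  have hxj : ∀ j, j ≠ i → x j = c s k j := by
    intro j hj
    have h1 := (hskel i hdir j).trans hzi
    rw [norm_z_iff', mid_mk, h0 j hj] at h1
    have h2 := hx j
    have h3 : |x j + x j - 2 * c s k j| < 3 ^ k := by
      have : x j + x j - 2 * c s k j = 2 * (x j - c s k j) := by ring
      rw [this, abs_mul]
      simpa using h2
    have h4 := Int.eq_zero_of_abs_lt_dvd h1 h3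
    omega
  rw [F, Finset.mem_image]
  rcases hcases with ⟨h1, h2⟩ | ⟨h1, h2⟩
  · refine ⟨(i, true), Finset.mem_univ _, ?_⟩
    apply Subtype.ext
    have hX : inner s k i true = x := by
      funext j
      by_cases hj : j = i
      · subst hj; simp [inner, h1]
      · simp [inner, hj, hxj j hj]
    have hY : outer s k i true = y := by
      funext j
      by_cases hj : j = i
      · subst hj; simp [outer, h2]
      · simp [outer, hj, hxj j hj, h0 j hj]
    simp only [bdEdge, hX, hY]
  · refine ⟨(i, false), Finset.mem_univ _, ?_⟩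
    apply Subtype.ext
    have hX : inner s k i false = x := by
      funext j
      by_cases hj : j = i
      · subst hj; simp [inner, h1]; ring
      · simp [inner, hj, hxj j hj]
    have hY : outer s k i false = y := by
      funext j
      by_cases hj : j = i
      · subst hj; simp [outer, h2]; ring
      · simp [outer, hj, hxj j hj, h0 j hj]
    simp only [bdEdge, hX, hY]

/-- walking along a line -/
lemma reachable_line (G : SimpleGraph (Fin d → ℤ)) (h : Fin d → ℤ) (i : Fin d) (a b : ℤ)
    (hG : ∀ t, min a b ≤ t → t < max a b →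
      G.Adj (Function.update h i t) (Function.update h i (t + 1))) :
    G.Reachable (Function.update h i a) (Function.update h i b) := by
  have key : ∀ a b : ℤ, a ≤ b → (∀ t, a ≤ t → t < b →
      G.Adj (Function.update h i t) (Function.update h i (t + 1))) →
      G.Reachable (Function.update h i a) (Function.update h i b) := by
    intro a b hab
    induction b, hab using Int.leInduction with
    | base => intro _; exact SimpleGraph.Reachable.refl _
    | succ n hn ih =>
      intro hG
      exact (ih fun t h1 h2 => hG t h1 (by omega)).trans (hG n hn (by omega)).reachable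
  rcases le_total a b with hab | hab
  · apply key a b hab
    intro t h1 h2
    exact hG t (by rw [min_eq_left hab]; exact h1) (by rw [max_eq_right hab]; exact h2)
  · apply SimpleGraph.Reachable.symm
    apply key b a hab
    intro t h1 h2
    exact hG t (by rw [min_eq_right hab]; exact h1) (by rw [max_eq_left hab]; exact h2)

lemma c_dvd (s : Shift d) (k : ℕ) (j : Fin d) : (3 ^ k : ℤ) ∣ c s (k + 1) j - c s k j := by
  rw [← norm_int_le]
  have h1 := c_close s k j
  have h2 := c_close s (k + 1) j
  have h3 : R (k + 1) ≤ R k := by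
    rw [R_eq, R_eq]
    exact pow_le_pow_of_le_one (by norm_num) (by norm_num) (Nat.le_succ k)
  have : ((c s (k + 1) j - c s k j : ℤ) : ℤ_[3])
      = ((c s (k + 1) j : ℤ_[3]) - s j) - ((c s k j : ℤ_[3]) - s j) := by push_cast; ring
  rw [this]
  apply norm_le_of_sub (a := -((c s k j : ℤ_[3]) - s j))
  · rw [norm_neg]; exact h1
  · have : (c s (k + 1) j : ℤ_[3]) - s j - ((c s k j : ℤ_[3]) - s j) - -((c s k j : ℤ_[3]) - s j)
        = (c s (k + 1) j : ℤ_[3]) - s j := by ring
    rw [this]; exact h2.trans h3

lemma c_diff_le (s : Shift d) (k : ℕ) (j : Fin d) : |c s (k + 1) j - c s k j| ≤ 3 ^ k := by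
  obtain ⟨q, hq⟩ := c_dvd s k j
  have h1 := c_bound s k j
  have h2 := c_bound s (k + 1) j
  have h3 : |c s (k + 1) j - c s k j| ≤ |c s (k + 1) j| + |c s k j| := abs_sub _ _
  have h4 : (3 : ℤ) ^ (k + 1) = 3 * 3 ^ k := by ring
  rw [h4] at h2
  have hpos : (0 : ℤ) < 3 ^ k := by positivity
  have h5 : |c s (k + 1) j - c s k j| < 2 * 3 ^ k := by omega
  rw [hq, abs_mul, abs_of_pos hpos] at h5 ⊢
  have h6 : |q| < 2 := by nlinarith
  have h7 : |q| ≤ 1 := by omega
  nlinarith

/-- Edges used to join consecutive centres: they are skeleton edges, with small `3`-adic norm in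
some coordinate, inside the box of size `3^(k+1)`. -/
lemma path_edge (hd : 2 ≤ d) (s : Shift d) (k : ℕ) (i : Fin d) (h : Fin d → ℤ)
    (hh : ∀ j, j ≠ i → h j = c s k j ∨ h j = c s (k + 1) j) (t : ℤ)
    (ht1 : min (c s k i) (c s (k + 1) i) ≤ t) (ht2 : t < max (c s k i) (c s (k + 1) i)) :
    Skel s s(Function.update h i t, Function.update h i (t + 1)) ∧
    (∃ j, ‖z s s(Function.update h i t, Function.update h i (t + 1)) j‖ ≤ R k) ∧
    (∀ j, |Function.update h i t j| ≤ 3 ^ (k + 1)) := by
  have hsmall : ∀ j, j ≠ i →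
      ‖z s s(Function.update h i t, Function.update h i (t + 1)) j‖ ≤ R k := by
    intro j hj
    rw [norm_z_iff', mid_mk]
    simp only [Function.update_of_ne hj]
    rcases hh j hj with h1 | h1
    · rw [h1]; exact ⟨0, by ring⟩
    · rw [h1]
      obtain ⟨q, hq⟩ := c_dvd s k j
      exact ⟨2 * q, by linear_combination 2 * hq⟩
  have hbig : R k ≤ ‖z s s(Function.update h i t, Function.update h i (t + 1)) i‖ := by
    apply le_norm_of_not
    rw [norm_z_iff', mid_mk]
    simp only [Function.update_self]
    intro hdvd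
    have h1 := c_diff_le s k i
    have hpos : (0 : ℤ) < 3 ^ k := by positivity
    have h4 : (3 : ℤ) ^ (k + 1) = 3 * 3 ^ k := by ring
    have h5 : |t + (t + 1) - 2 * c s (k + 1) i| < 3 ^ (k + 1) := by
      rw [h4, abs_lt]
      rw [abs_le] at h1
      rcases le_total (c s k i) (c s (k + 1) i) with hle | hle
      · rw [min_eq_left hle] at ht1
        rw [max_eq_right hle] at ht2
        constructor <;> omega
      · rw [min_eq_right hle] at ht1
        rw [max_eq_left hle] at ht2
        constructor <;> omega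
    have h6 := Int.eq_zero_of_abs_lt_dvd hdvd h5
    omega
  refine ⟨?_, ?_, ?_⟩
  · intro i' hi' j
    have hii : i' = i := by
      by_contra hne
      rw [dir_mk] at hi'
      simp only [Function.update_of_ne hne] at hi'
      exact hi' rfl
    subst hii
    by_cases hj : j = i'
    · rw [hj]
    · exact (hsmall j hj).trans hbig
  · obtain ⟨j, hj⟩ : ∃ j : Fin d, j ≠ i := by
      have : Nontrivial (Fin d) := Fin.nontrivial_iff_two_le.2 hd
      exact exists_ne i
    exact ⟨j, hsmall j hj⟩
  · intro j
    have hpos : (0 : ℤ) < 3 ^ k := by positivity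
    have h4 : (3 : ℤ) ^ (k + 1) = 3 * 3 ^ k := by ring
    by_cases hj : j = i
    · subst hj
      simp only [Function.update_self]
      have h1 := c_bound s k j
      have h2 := c_bound s (k + 1) j
      rw [h4] at h2 ⊢
      have h1' := abs_le.1 (le_refl |c s k j|)
      have h2' := abs_le.1 (le_refl |c s (k + 1) j|)
      rw [abs_le]
      rcases le_total (c s k j) (c s (k + 1) j) with hle | hle
      · rw [min_eq_left hle] at ht1
        rw [max_eq_right hle] at ht2
        constructor <;> omega
      · rw [min_eq_right hle] at ht1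
        rw [max_eq_left hle] at ht2
        constructor <;> omega
    · simp only [Function.update_of_ne hj]
      rcases hh j hj with h1 | h1
      · rw [h1, h4]; have := c_bound s k j; omega
      · rw [h1]; have := c_bound s (k + 1) j
        rw [h4] at this ⊢
        omega

/-- hybrid points between consecutive centres -/
noncomputable def hyb (s : Shift d) (k m : ℕ) (j : Fin d) : ℤ :=
  if j.val < m then c s (k + 1) j else c s k j

lemma hyb_zero (s : Shift d) (k : ℕ) : hyb s k 0 = c s k := by
  funext j; simp [hyb]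

lemma hyb_last (s : Shift d) (k : ℕ) : hyb s k d = c s (k + 1) := by
  funext j; simp [hyb]

lemma reach_centres (hd : 2 ≤ d) (s : Shift d) (k : ℕ) (G : SimpleGraph (Fin d → ℤ))
    (hG : ∀ x y : Fin d → ℤ, (lattice d).Adj x y → Skel s s(x, y) →
      (∃ j, ‖z s s(x, y) j‖ ≤ R k) → (∀ j, |x j| ≤ 3 ^ (k + 1)) → G.Adj x y) :
    G.Reachable (c s k) (c s (k + 1)) := by
  rw [← hyb_zero, ← hyb_last]
  have key : ∀ m, m ≤ d → G.Reachable (hyb s k 0) (hyb s k m) := by
    intro m
    induction m with
    | zero => intro _; exact SimpleGraph.Reachable.refl _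
    | succ m ih =>
      intro hm
      refine (ih (by omega)).trans ?_
      have hmd : m < d := by omega
      set i : Fin d := ⟨m, hmd⟩ with hi
      have e1 : hyb s k m = Function.update (hyb s k m) i (c s k i) := by
        funext j
        by_cases hj : j = i
        · subst hj; simp [hyb, hi]
        · simp [hj]
      have e2 : hyb s k (m + 1) = Function.update (hyb s k m) i (c s (k + 1) i) := by
        funext j
        by_cases hj : j = i
        · subst hj; simp [hyb, hi]
        · simp only [Function.update_of_ne hj]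
          have : j.val ≠ m := fun h => hj (Fin.ext h)
          unfold hyb
          by_cases h1 : j.val < m
          · rw [if_pos h1, if_pos (by omega)]
          · rw [if_neg h1, if_neg (by omega)]
      rw [e1, e2]
      have e3 : Function.update (Function.update (hyb s k m) i (c s k i)) i (c s (k + 1) i)
          = Function.update (hyb s k m) i (c s (k + 1) i) := by simp
      rw [← e1]
      conv_lhs => rw [e1]
      apply reachable_line
      intro t ht1 ht2
      obtain ⟨h1, h2, h3⟩ := path_edge hd s k i (hyb s k m)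
        (fun j _ => by unfold hyb; split_ifs <;> simp) t ht1 ht2
      apply hG _ _ _ h1 h2 h3
      rw [adj_iff_coord]
      exact ⟨i, by simp, fun j hj => by simp [hj]⟩
  exact key d le_rfl

open Classical in
/-- the configuration built from the shift `s` and the uniform variables `U` -/
noncomputable def X (s : Shift d) (U : Edge d → unitInterval) : Config d := fun e =>
  xor (decide (Skel s e.1)) (decide ((U e : ℝ) < eps s e.1))

/-- no flipped edge near the origin with a small norm -/
def NoFlip (s : Shift d) (U : Edge d → unitInterval) (k : ℕ) : Prop :=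
  ∀ e : Edge d, (∃ x ∈ e.1, ∀ j, |x j| ≤ 3 ^ (k + 1)) → (∃ j, ‖z s e.1 j‖ ≤ R k) →
    ¬ ((U e : ℝ) < eps s e.1)

lemma X_of_noFlip {s : Shift d} {U : Edge d → unitInterval} {e : Edge d}
    (h : ¬ ((U e : ℝ) < eps s e.1)) : X s U e = true ↔ Skel s e.1 := by
  classical
  unfold X
  simp [h]

lemma percolates_det (hd : 2 ≤ d) {s : Shift d} (hs : Good s) {U : Edge d → unitInterval}
    (hU : ∀ᶠ k in atTop, NoFlip s U k) : HasInfiniteCluster (X s U) := by
  obtain ⟨K, hK⟩ := eventually_atTop.1 hU
  have hstep : ∀ k, K ≤ k → (openGraph (X s U)).Reachable (c s k) (c s (k + 1)) := by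
    intro k hk
    apply reach_centres hd
    intro x y hadj hskel hz hbox
    refine ⟨hadj, ?_⟩
    exact (X_of_noFlip (hK k hk ⟨s(x, y), hadj⟩ ⟨x, Sym2.mem_mk_left _ _, hbox⟩ hz)).2 hskel
  have hreach : ∀ k, K ≤ k → (openGraph (X s U)).Reachable (c s K) (c s k) := by
    intro k hk
    induction k, hk using Nat.le_induction with
    | base => exact SimpleGraph.Reachable.refl _
    | succ n hn ih => exact ih.trans (hstep n hn)
  refine ⟨(openGraph (X s U)).connectedComponentMk (c s K), ?_⟩
  intro hfin
  have h1 : ∀ y ∈ ((openGraph (X s U)).connectedComponentMk (c s K)).supp,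
      ∀ᶠ k in atTop, c s k ≠ y := fun y _ => c_leaves hs (by omega) y
  rw [← Filter.eventually_all_finite hfin] at h1
  obtain ⟨k, hk1, hk2⟩ := (h1.and (eventually_ge_atTop K)).exists
  apply hk1 (c s k) _ rfl
  rw [SimpleGraph.ConnectedComponent.mem_supp_iff, SimpleGraph.ConnectedComponent.eq]
  exact (hreach k hk2).symm

lemma not_percolates_det {s : Shift d} (hs : Good s) {U : Edge d → unitInterval}
    (hU : ∀ᶠ k in atTop, NoFlip s U k) {V : Edge d → Bool}
    (hV : ∃ᶠ k in atTop, ∀ e ∈ F s k, V e = false) :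
    ¬ HasInfiniteCluster (fun e => X s U e && V e) := by
  rintro ⟨C, hC⟩
  obtain ⟨x, rfl⟩ := C.exists_rep
  obtain ⟨k, hkV, hkU, hkx⟩ := (hV.and_eventually (hU.and (exhaustion hs x))).exists
  apply hC
  refine (finite_InB s k).subset ?_
  intro y hy
  rw [SimpleGraph.ConnectedComponent.mem_supp_iff] at hy
  have hy' : (openGraph (fun e => X s U e && V e)).Reachable x y :=
    (SimpleGraph.ConnectedComponent.exact hy).symm
  -- no open edge leaves the block
  have hclosed : ∀ u v, (openGraph (fun e => X s U e && V e)).Adj u v → InB s k u → InB s k v := by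
    intro u v huv hu
    by_contra hv
    obtain ⟨hadj, hopen⟩ := huv
    rw [Bool.and_eq_true] at hopen
    obtain ⟨i, hdir, hz, hskel⟩ := crossing hadj hu hv
    have hbox : ∀ j, |u j| ≤ 3 ^ (k + 1) := by
      intro j
      have h1 := hu.abs_lt j
      have h4 : (3 : ℤ) ^ (k + 1) = 3 * 3 ^ k := by ring
      have hpos : (0 : ℤ) < 3 ^ k := by positivity
      omega
    have hX := (X_of_noFlip (hkU ⟨s(u, v), hadj⟩ ⟨u, Sym2.mem_mk_left _ _, hbox⟩ ⟨i, hz⟩)).1
      hopen.1
    have := hkV _ (hskel hX)
    rw [hopen.2] at this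
    exact Bool.noConfusion this
  obtain ⟨p⟩ := hy'
  show InB s k y
  have : ∀ {u v : Fin d → ℤ} (p : (openGraph (fun e => X s U e && V e)).Walk u v),
      InB s k u → InB s k v := by
    intro u v p
    induction p with
    | nil => exact id
    | cons h _ ih => exact fun hu => ih (hclosed _ _ h hu)
  exact this p hkx

lemma prod_norm_nonneg (s : Shift d) (e : Sym2 (Fin d → ℤ)) : 0 ≤ ∏ j, ‖z s e j‖ :=
  Finset.prod_nonneg fun _ _ => norm_nonneg _

lemma prod_norm_le_one (s : Shift d) (e : Sym2 (Fin d → ℤ)) : ∏ j, ‖z s e j‖ ≤ 1 :=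
  Finset.prod_le_one (fun _ _ => norm_nonneg _) fun _ _ => PadicInt.norm_le_one _

lemma eps_nonneg (s : Shift d) (e : Sym2 (Fin d → ℤ)) : 0 ≤ eps s e := by
  unfold eps
  have := prod_norm_nonneg s e
  positivity

lemma eps_le_half (s : Shift d) (e : Sym2 (Fin d → ℤ)) : eps s e ≤ 1 / 2 := by
  unfold eps
  have h1 := prod_norm_nonneg s e
  have h2 := prod_norm_le_one s e
  have h3 : (∏ j, ‖z s e j‖) ^ (d + 1) ≤ 1 := pow_le_one₀ h1 h2
  linarith

lemma eps_pos {s : Shift d} (hs : Good s) (e : Sym2 (Fin d → ℤ)) : 0 < eps s e := by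
  unfold eps
  have : 0 < ∏ j, ‖z s e j‖ := Finset.prod_pos fun j _ => norm_pos_iff.2 (hs j _)
  positivity

lemma eps_le (s : Shift d) (e : Sym2 (Fin d → ℤ)) (k : ℕ) (h : ∃ j, ‖z s e j‖ ≤ R k) :
    eps s e ≤ (R k) ^ (d + 1) := by
  classical
  obtain ⟨j, hj⟩ := h
  unfold eps
  have h1 := prod_norm_nonneg s e
  have h2 : ∏ j, ‖z s e j‖ ≤ R k := by
    rw [← Finset.mul_prod_erase _ _ (Finset.mem_univ j)]
    calc ‖z s e j‖ * ∏ x ∈ Finset.univ.erase j, ‖z s e x‖
        ≤ R k * 1 := by
          apply mul_le_mul hj _ (Finset.prod_nonneg fun _ _ => norm_nonneg _) (R_pos k).le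
          exact Finset.prod_le_one (fun _ _ => norm_nonneg _) fun _ _ => PadicInt.norm_le_one _
      _ = R k := mul_one _
  have h3 : (∏ j, ‖z s e j‖) ^ (d + 1) ≤ (R k) ^ (d + 1) := pow_le_pow_left₀ h1 h2 _
  have h4 : 0 ≤ (∏ j, ‖z s e j‖) ^ (d + 1) := pow_nonneg h1 _
  linarith

/-- uniform variables -/
noncomputable def unifE (d : ℕ) : Measure (Edge d → unitInterval) :=
  Measure.infinitePi fun _ : Edge d => (volume : Measure unitInterval)

instance : IsProbabilityMeasure (unifE d) := by unfold unifE; infer_instance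

lemma volume_lt (t : ℝ) (h0 : 0 ≤ t) (h1 : t ≤ 1) :
    (volume : Measure unitInterval) {u | (u : ℝ) < t} = ENNReal.ofReal t := by
  have : {u : unitInterval | (u : ℝ) < t} = Set.Iio (⟨t, h0, h1⟩ : unitInterval) := by
    ext u; rfl
  rw [this, unitInterval.volume_Iio]

lemma unifE_lt (e : Edge d) (t : ℝ) (h0 : 0 ≤ t) (h1 : t ≤ 1) :
    unifE d {U | (U e : ℝ) < t} = ENNReal.ofReal t := by
  have hm := measurePreserving_eval_infinitePi
    (μ := fun _ : Edge d => (volume : Measure unitInterval)) e
  have hms : MeasurableSet {u : unitInterval | (u : ℝ) < t} :=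
    measurableSet_lt measurable_subtype_coe measurable_const
  have := hm.measure_preimage hms.nullMeasurableSet
  rw [volume_lt t h0 h1] at this
  exact this

/-- the neighbour of `x` in direction `i` with sign `b` -/
def nbr (x : Fin d → ℤ) (i : Fin d) (b : Bool) : Fin d → ℤ :=
  Function.update x i (x i + if b then 1 else -1)

lemma adj_nbr (x : Fin d → ℤ) (i : Fin d) (b : Bool) : (lattice d).Adj x (nbr x i b) := by
  rw [adj_iff_coord]
  refine ⟨i, ?_, fun j hj => by simp [nbr, hj]⟩
  cases b <;> simp [nbr]; omega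

/-- the edge from a point to its neighbour -/
def nbrEdge (p : (Fin d → ℤ) × (Fin d × Bool)) : Edge d :=
  ⟨s(p.1, nbr p.1 p.2.1 p.2.2), adj_nbr p.1 p.2.1 p.2.2⟩

open Classical in
/-- the edges having an endpoint in the box of size `3^(k+1)` -/
noncomputable def boxEdges (d k : ℕ) : Finset (Edge d) :=
  ((Fintype.piFinset fun _ : Fin d => Finset.Icc (-(3 : ℤ) ^ (k + 1)) (3 ^ (k + 1))) ×ˢ
    (Finset.univ : Finset (Fin d × Bool))).image nbrEdge

lemma mem_boxEdges (k : ℕ) (e : Edge d) (h : ∃ x ∈ e.1, ∀ j, |x j| ≤ 3 ^ (k + 1)) :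
    e ∈ boxEdges d k := by
  classical
  obtain ⟨x, hx, hbox⟩ := h
  obtain ⟨e, he⟩ := e
  obtain ⟨y, rfl⟩ := hx
  have hadj : (lattice d).Adj x y := he
  obtain ⟨i, hi, h0⟩ := (adj_iff_coord x y).1 hadj
  rw [boxEdges, Finset.mem_image]
  have hxm : x ∈ Fintype.piFinset fun _ : Fin d =>
      Finset.Icc (-(3 : ℤ) ^ (k + 1)) (3 ^ (k + 1)) := by
    rw [Fintype.mem_piFinset]
    intro j
    rw [Finset.mem_Icc]
    have := abs_le.1 (hbox j)
    exact this
  rcases hi with hi | hi
  · refine ⟨(x, (i, true)), by simp only [Finset.mem_product, Finset.mem_univ, and_true]; exact hxm, ?_⟩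
    apply Subtype.ext
    have : nbr x i true = y := by
      funext j
      by_cases hj : j = i
      · subst hj; simp [nbr, hi]
      · simp [nbr, hj, h0 j hj]
    simp only [nbrEdge, this]
  · refine ⟨(x, (i, false)), by simp only [Finset.mem_product, Finset.mem_univ, and_true]; exact hxm, ?_⟩
    apply Subtype.ext
    have : nbr x i false = y := by
      funext j
      by_cases hj : j = i
      · subst hj; simp [nbr, hi]; omega
      · simp [nbr, hj, h0 j hj]
    simp only [nbrEdge, this]

lemma card_boxEdges (d k : ℕ) : (boxEdges d k).card ≤ (3 ^ (k + 2)) ^ d * (2 * d) := by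
  classical
  refine Finset.card_image_le.trans ?_
  rw [Finset.card_product, Fintype.card_piFinset]
  simp only [Int.card_Icc, Finset.prod_const, Finset.card_univ, Fintype.card_fin,
    Fintype.card_prod, Fintype.card_bool]
  have h1 : ((3 : ℤ) ^ (k + 1) + 1 - -3 ^ (k + 1)).toNat ≤ 3 ^ (k + 2) := by
    have h2 : (1 : ℤ) ≤ 3 ^ (k + 1) := one_le_pow₀ (by norm_num)
    have h3 : (3 : ℤ) ^ (k + 2) = 3 * 3 ^ (k + 1) := by ring
    zify
    rw [Int.toNat_of_nonneg (by omega)]
    push_cast
    rw [h3]; omega
  calc _ ≤ (3 ^ (k + 2)) ^ d * (d * 2) := Nat.mul_le_mul_right _ (Nat.pow_le_pow_left h1 _)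
    _ = _ := by ring

lemma measure_flip_le (s : Shift d) (k : ℕ) :
    unifE d {U | ¬ NoFlip s U k} ≤ ENNReal.ofReal ((2 * d * 9 ^ d) * (1 / 3) ^ k) := by
  classical
  have hsub : {U : Edge d → unitInterval | ¬ NoFlip s U k} ⊆
      ⋃ e ∈ (boxEdges d k).filter (fun e => ∃ j, ‖z s e.1 j‖ ≤ R k),
        {U : Edge d → unitInterval | (U e : ℝ) < eps s e.1} := by
    intro U hU
    simp only [NoFlip, Set.mem_ofPred_eq, not_forall, not_not] at hU
    obtain ⟨e, h1, h2, h3⟩ := hU
    simp only [Set.mem_iUnion]
    exact ⟨e, by rw [Finset.mem_filter]; exact ⟨mem_boxEdges k e h1, h2⟩, h3⟩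
  refine (measure_mono hsub).trans ?_
  refine (measure_biUnion_finset_le _ _).trans ?_
  calc ∑ e ∈ (boxEdges d k).filter (fun e => ∃ j, ‖z s e.1 j‖ ≤ R k),
        unifE d {U | (U e : ℝ) < eps s e.1}
      ≤ ∑ e ∈ (boxEdges d k).filter (fun e => ∃ j, ‖z s e.1 j‖ ≤ R k),
        ENNReal.ofReal ((R k) ^ (d + 1)) := by
        apply Finset.sum_le_sum
        intro e he
        rw [Finset.mem_filter] at he
        rw [unifE_lt e _ (eps_nonneg _ _) ((eps_le_half _ _).trans (by norm_num))]
        exact ENNReal.ofReal_le_ofReal (eps_le s e.1 k he.2)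
    _ = ((boxEdges d k).filter (fun e => ∃ j, ‖z s e.1 j‖ ≤ R k)).card *
        ENNReal.ofReal ((R k) ^ (d + 1)) := by rw [Finset.sum_const, nsmul_eq_mul]
    _ ≤ (((3 ^ (k + 2)) ^ d * (2 * d) : ℕ) : ENNReal) * ENNReal.ofReal ((R k) ^ (d + 1)) := by
        gcongr
        exact (Finset.card_filter_le _ _).trans (card_boxEdges d k)
    _ = ENNReal.ofReal ((((3 ^ (k + 2)) ^ d * (2 * d) : ℕ) : ℝ) * (R k) ^ (d + 1)) := by
        rw [ENNReal.ofReal_mul (by positivity), ENNReal.ofReal_natCast]
    _ = ENNReal.ofReal ((2 * d * 9 ^ d) * (1 / 3) ^ k) := by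
        congr 1
        rw [R_eq]
        push_cast
        have h1 : ((3 : ℝ) ^ (k + 2)) ^ d = (3 ^ k) ^ d * 9 ^ d := by
          rw [pow_add, mul_pow]; norm_num
        have h2 : ((1 / 3 : ℝ) ^ k) ^ (d + 1) = ((1 / 3 : ℝ) ^ k) ^ d * (1 / 3) ^ k := pow_succ _ _
        have h3 : ((3 : ℝ) ^ k) ^ d * ((1 / 3 : ℝ) ^ k) ^ d = 1 := by
          rw [← mul_pow, ← mul_pow]; norm_num
        rw [h1, h2]
        linear_combination (2 * d * 9 ^ d * (1 / 3 : ℝ) ^ k) * h3

lemma ae_noFlip (s : Shift d) : ∀ᵐ U ∂(unifE d), ∀ᶠ k in atTop, NoFlip s U k := by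
  have h : ∑' k, unifE d {U | ¬ NoFlip s U k} ≠ ⊤ := by
    have hsum : Summable fun k : ℕ => (2 * d * 9 ^ d : ℝ) * (1 / 3) ^ k :=
      (summable_geometric_of_lt_one (by norm_num) (by norm_num)).mul_left _
    have h1 : ∑' k, unifE d {U | ¬ NoFlip s U k} ≤
        ∑' k : ℕ, ENNReal.ofReal ((2 * d * 9 ^ d) * (1 / 3) ^ k) :=
      ENNReal.tsum_le_tsum fun k => measure_flip_le s k
    refine ne_top_of_le_ne_top ?_ h1
    exact hsum.tsum_ofReal_ne_top
  filter_upwards [ae_eventually_notMem h] with U hU
  filter_upwards [hU] with k hk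
  simpa using hk

lemma ae_frequently_zero {E : Type*} (p : unitInterval) (hp : (p : ℝ) < 1) (F : ℕ → Finset E)
    (M : ℕ) (hcard : ∀ k, (F k).card ≤ M) (hesc : ∀ e, ∀ᶠ k in atTop, e ∉ F k) :
    ∀ᵐ V ∂(Measure.infinitePi fun _ : E => bernoulliMeasure true false p),
      ∃ᶠ k in atTop, ∀ e ∈ F k, V e = false := by
  classical
  set μ := (Measure.infinitePi fun _ : E => bernoulliMeasure true false p) with hμ
  -- sparse subsequence
  have hg : ∀ k, ∃ g, k < g ∧ ∀ m, g ≤ m → Disjoint (F k) (F m) := by
    intro k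
    have h1 : ∀ᶠ m in atTop, ∀ e ∈ F k, e ∉ F m := by
      rw [Filter.eventually_all_finset]
      intro e _
      exact hesc e
    obtain ⟨N, hN⟩ := eventually_atTop.1 h1
    refine ⟨max N (k + 1), by omega, ?_⟩
    intro m hm
    rw [Finset.disjoint_left]
    exact hN m (by omega)
  choose g hg1 hg2 using hg
  set n : ℕ → ℕ := fun i => g^[i] 0 with hn
  have hnsucc : ∀ i, n (i + 1) = g (n i) := by
    intro i; simp only [hn, Function.iterate_succ_apply']
  have hmono : StrictMono n := strictMono_nat_of_lt_succ fun i => by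
    rw [hnsucc]; exact hg1 _
  have hdisj : ∀ i j, i < j → Disjoint (F (n i)) (F (n j)) := by
    intro i j hij
    apply hg2
    rw [← hnsucc]
    exact hmono.monotone hij
  set A : ℕ → Set (E → Bool) := fun i => Set.pi (F (n i)) (fun _ => {false}) with hA
  have hAm : ∀ i, MeasurableSet (A i) := fun i =>
    MeasurableSet.pi (Finset.countable_toSet _) fun _ _ => measurableSet_singleton _
  have hber : bernoulliMeasure true false p ({false} : Set Bool)
      = (unitInterval.toNNReal (unitInterval.symm p) : ENNReal) := by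
    classical
    rw [bernoulliMeasure_apply p (measurableSet_singleton _)]
    simp
  have hmeas : ∀ G : Finset E, μ (Set.pi G (fun _ => ({false} : Set Bool)))
      = (unitInterval.toNNReal (unitInterval.symm p) : ENNReal) ^ G.card := by
    intro G
    rw [hμ, Measure.infinitePi_pi _ (fun _ _ => measurableSet_singleton _)]
    simp [hber]
  have hindep : iIndepSet A μ := by
    rw [iIndepSet_iff_meas_biInter hAm]
    intro t
    have h1 : (⋂ i ∈ t, A i) = Set.pi ((t.biUnion fun i => F (n i) : Finset E) : Set E)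
        (fun _ => ({false} : Set Bool)) := by
      ext V
      simp only [hA, Set.mem_iInter, Set.mem_pi, Finset.mem_coe, Finset.mem_biUnion]
      constructor
      · rintro h e ⟨i, hi, he⟩
        exact h i hi e he
      · intro h i hi e he
        exact h e ⟨i, hi, he⟩
    rw [h1, hmeas, Finset.card_biUnion, ← Finset.prod_pow_eq_pow_sum]
    · exact Finset.prod_congr rfl fun i _ => (hmeas _).symm
    · intro i _ j _ hij
      rcases lt_or_gt_of_ne hij with h | h
      · exact hdisj i j h
      · exact (hdisj j i h).symm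
  set q : ENNReal := (unitInterval.toNNReal (unitInterval.symm p) : ENNReal) with hq
  have hq0 : q ≠ 0 := by
    rw [hq]
    have : (0 : ℝ) < unitInterval.symm p := by
      rw [unitInterval.coe_symm_eq]; linarith
    have h2 : unitInterval.toNNReal (unitInterval.symm p) ≠ 0 := by
      intro h
      have h3 := congrArg NNReal.toReal h
      simp only [unitInterval.coe_toNNReal, NNReal.coe_zero] at h3
      linarith
    exact_mod_cast h2
  have hq1 : q ≤ 1 := by
    rw [hq]
    have : unitInterval.toNNReal (unitInterval.symm p) ≤ 1 := by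
      rw [← NNReal.coe_le_coe]
      simpa using (unitInterval.symm p).2.2
    exact_mod_cast this
  have hsum : ∑' i, μ (A i) = ⊤ := by
    have h1 : ∑' _ : ℕ, q ^ M ≤ ∑' i, μ (A i) := by
      apply ENNReal.tsum_le_tsum
      intro i
      rw [hA]
      simp only
      rw [hmeas]
      exact pow_le_pow_right_of_le_one' hq1 (hcard _)
    rw [ENNReal.tsum_const_eq_top_of_ne_zero (pow_ne_zero _ hq0)] at h1
    exact top_le_iff.1 h1
  have hone := measure_limsup_eq_one hAm hindep hsum
  have hae : ∀ᵐ V ∂μ, V ∈ limsup A atTop := by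
    have hms : MeasurableSet (limsup A atTop) := MeasurableSet.measurableSet_limsup hAm
    exact (mem_ae_iff_prob_eq_one hms).2 hone
  filter_upwards [hae] with V hV
  rw [mem_limsup_iff_frequently_mem] at hV
  have hV' : ∃ᶠ i in atTop, ∀ e ∈ F (n i), V e = false := by
    refine hV.mono ?_
    intro i hi
    simpa [hA, Set.mem_pi] using hi
  exact hmono.tendsto_atTop.frequently hV'

noncomputable local instance instMS3 : MeasurableSpace ℤ_[3] := borel _
local instance instBS3 : BorelSpace ℤ_[3] := ⟨rfl⟩

instance : Countable (Edge d) := by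
  unfold Edge
  infer_instance

/-- normalised Haar measure on `ℤ_3` -/
noncomputable def haar3 : Measure ℤ_[3] := Measure.addHaarMeasure ⊤

instance : IsProbabilityMeasure haar3 := ⟨by
  have := Measure.addHaarMeasure_self (G := ℤ_[3]) (K₀ := ⊤)
  simpa [haar3] using this⟩

instance : haar3.IsAddHaarMeasure := by unfold haar3; infer_instance

instance : (nhdsWithin (0 : ℤ_[3]) {0}ᶜ).NeBot := by
  rw [← mem_closure_iff_nhdsWithin_neBot, Metric.mem_closure_iff]
  intro ε hε
  obtain ⟨k, hk⟩ := ((tendsto_order.1 R_tendsto).2 ε hε).exists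
  refine ⟨(3 : ℤ_[3]) ^ k, ?_, ?_⟩
  · simp
  · rw [dist_zero_left]
    have : ‖((3 ^ k : ℤ) : ℤ_[3])‖ ≤ R k := by rw [norm_int_le]
    push_cast at this
    exact this.trans_lt hk

instance : NullSingletonClass haar3 := by unfold haar3; infer_instance

/-- law of the shift -/
noncomputable def shiftLaw (d : ℕ) : Measure (Shift d) := Measure.pi fun _ => haar3

instance : IsProbabilityMeasure (shiftLaw d) := by unfold shiftLaw; infer_instance

lemma ae_good : ∀ᵐ s ∂(shiftLaw d), Good s := by
  unfold Good
  rw [ae_all_iff]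
  intro j
  rw [ae_all_iff]
  intro n
  have hmp : MeasurePreserving (Function.eval j) (shiftLaw d) haar3 :=
    measurePreserving_eval (fun _ : Fin d => haar3) j
  have h0 : haar3 {t : ℤ_[3] | (n : ℤ_[3]) - 2 * t = 0} = 0 := by
    apply Set.Subsingleton.measure_zero
    intro a ha b hb
    simp only [Set.mem_ofPred_eq] at ha hb
    have h2 : (2 : ℤ_[3]) ≠ 0 := two_ne_zero
    have : 2 * a = 2 * b := by linear_combination hb - ha
    exact mul_left_cancel₀ h2 this
  have h1 : ∀ᵐ t ∂haar3, (n : ℤ_[3]) - 2 * t ≠ 0 := by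
    rw [ae_iff]; simpa using h0
  exact hmp.quasiMeasurePreserving.ae h1

lemma measurable_norm_z (e : Sym2 (Fin d → ℤ)) (j : Fin d) :
    Measurable fun s : Shift d => ‖z s e j‖ := by
  unfold z
  have h : Continuous fun t : ℤ_[3] => ‖(mid e j : ℤ_[3]) - 2 * t‖ := by fun_prop
  exact h.measurable.comp (measurable_pi_apply j)

lemma measurable_skel (e : Sym2 (Fin d → ℤ)) : Measurable fun s : Shift d => Skel s e := by
  unfold Skel
  refine Measurable.forall fun i => ?_
  refine Measurable.imp measurable_const ?_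
  refine Measurable.forall fun j => ?_
  exact measurableSet_setOfPred.1 (measurableSet_le (measurable_norm_z e j) (measurable_norm_z e i))

lemma measurable_eps (e : Sym2 (Fin d → ℤ)) : Measurable fun s : Shift d => eps s e := by
  unfold eps
  exact ((Finset.measurable_prod _ fun j _ => measurable_norm_z e j).pow_const _).const_mul _

lemma measurable_flip (e : Edge d) :
    Measurable fun p : Shift d × (Edge d → unitInterval) => (p.2 e : ℝ) < eps p.1 e.1 := by
  apply measurableSet_setOfPred.1
  apply measurableSet_lt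
  · exact measurable_subtype_coe.comp ((measurable_pi_apply e).comp measurable_snd)
  · exact (measurable_eps e.1).comp measurable_fst

lemma measurable_X : Measurable fun p : Shift d × (Edge d → unitInterval) => X p.1 p.2 := by
  classical
  rw [measurable_pi_iff]
  intro e
  unfold X
  have h1 : Measurable fun p : Shift d × (Edge d → unitInterval) => decide (Skel p.1 e.1) := by
    have : Measurable fun p : Shift d × (Edge d → unitInterval) => Skel p.1 e.1 :=
      (measurable_skel e.1).comp measurable_fst
    exact (measurable_from_top (f := fun q : Prop => decide q)).comp this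
  have h2 : Measurable fun p : Shift d × (Edge d → unitInterval) =>
      decide ((p.2 e : ℝ) < eps p.1 e.1) :=
    (measurable_from_top (f := fun q : Prop => decide q)).comp (measurable_flip e)
  exact (Measurable.of_discrete (f := fun q : Bool × Bool => xor q.1 q.2)).comp (h1.prodMk h2)


/-! ### measurability of the infinite cluster event -/

lemma measurable_adj (x y : Fin d → ℤ) :
    Measurable fun ω : Config d => (openGraph ω).Adj x y := by
  by_cases h : (lattice d).Adj x y
  · have : (fun ω : Config d => (openGraph ω).Adj x y)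
        = fun ω : Config d => ω ⟨s(x, y), h⟩ = true := by
      funext ω
      exact propext ⟨fun ⟨_, h2⟩ => h2, fun h2 => ⟨h, h2⟩⟩
    rw [this]
    exact (Measurable.of_discrete (f := fun b : Bool => b = true)).comp (measurable_pi_apply _)
  · have : (fun ω : Config d => (openGraph ω).Adj x y) = fun _ => False := by
      funext ω
      exact propext ⟨fun ⟨h1, _⟩ => h h1, fun h => h.elim⟩
    rw [this]
    exact measurable_const

/-- reachability in `n` steps -/
def stepReach (x : Fin d → ℤ) : ℕ → (Fin d → ℤ) → Config d → Prop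
  | 0, y, _ => x = y
  | n + 1, y, ω => ∃ w, stepReach x n w ω ∧ (openGraph ω).Adj w y

lemma measurable_stepReach (x : Fin d → ℤ) (n : ℕ) (y : Fin d → ℤ) :
    Measurable fun ω : Config d => stepReach x n y ω := by
  induction n generalizing y with
  | zero => exact measurable_const
  | succ n ih => exact Measurable.exists fun w => (ih w).and (measurable_adj w y)

lemma reachable_iff_step (x y : Fin d → ℤ) (ω : Config d) :
    (openGraph ω).Reachable x y ↔ ∃ n, stepReach x n y ω := by
  constructor
  · intro h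
    rw [SimpleGraph.reachable_iff_reflTransGen] at h
    induction h with
    | refl => exact ⟨0, rfl⟩
    | tail _ hadj ih =>
      obtain ⟨n, hn⟩ := ih
      exact ⟨n + 1, _, hn, hadj⟩
  · rintro ⟨n, hn⟩
    induction n generalizing y with
    | zero => rw [show x = y from hn]
    | succ n ih =>
      obtain ⟨w, hw, hadj⟩ := hn
      exact (ih w hw).trans hadj.reachable

lemma measurable_reachable (x y : Fin d → ℤ) :
    Measurable fun ω : Config d => (openGraph ω).Reachable x y := by
  simp_rw [reachable_iff_step]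
  exact Measurable.exists fun n => measurable_stepReach x n y

lemma hasInfiniteCluster_iff (ω : Config d) : HasInfiniteCluster ω ↔
    ∃ x, ∀ S : Finset (Fin d → ℤ), ∃ y, y ∉ S ∧ (openGraph ω).Reachable x y := by
  constructor
  · rintro ⟨C, hC⟩
    obtain ⟨x, rfl⟩ := C.exists_rep
    refine ⟨x, fun S => ?_⟩
    obtain ⟨y, hy, hyS⟩ := hC.exists_notMem_finset S
    refine ⟨y, hyS, ?_⟩
    rw [SimpleGraph.ConnectedComponent.mem_supp_iff] at hy
    exact (SimpleGraph.ConnectedComponent.exact hy).symm
  · rintro ⟨x, hx⟩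
    refine ⟨(openGraph ω).connectedComponentMk x, fun hfin => ?_⟩
    obtain ⟨y, hyS, hy⟩ := hx hfin.toFinset
    apply hyS
    rw [Set.Finite.mem_toFinset, SimpleGraph.ConnectedComponent.mem_supp_iff,
      SimpleGraph.ConnectedComponent.eq]
    exact hy.symm

lemma measurable_hasInfiniteCluster :
    Measurable fun ω : Config d => HasInfiniteCluster ω := by
  simp_rw [hasInfiniteCluster_iff]
  refine Measurable.exists fun x => Measurable.forall fun S => Measurable.exists fun y => ?_
  exact measurable_const.and (measurable_reachable x y)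

/-! ### the law of the percolation -/

/-- joint law of the shift and the uniform variables -/
noncomputable def base (d : ℕ) : Measure (Shift d × (Edge d → unitInterval)) :=
  (shiftLaw d).prod (unifE d)

instance : IsProbabilityMeasure (base d) := by unfold base; infer_instance

/-- the law of the percolation -/
noncomputable def law (d : ℕ) : Measure (Config d) := (base d).map fun p => X p.1 p.2

instance : IsProbabilityMeasure (law d) := by
  unfold law
  exact Measure.isProbabilityMeasure_map measurable_X.aemeasurable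

lemma measurable_noFlip (k : ℕ) :
    Measurable fun p : Shift d × (Edge d → unitInterval) => NoFlip p.1 p.2 k := by
  unfold NoFlip
  refine Measurable.forall fun e => Measurable.imp measurable_const (Measurable.imp ?_ ?_)
  · refine Measurable.exists fun j => ?_
    exact measurableSet_setOfPred.1 (measurableSet_le
      ((measurable_norm_z e.1 j).comp measurable_fst) measurable_const)
  · exact (measurable_flip e).not

lemma ae_base_noFlip : ∀ᵐ p ∂(base d), ∀ᶠ k in atTop, NoFlip p.1 p.2 k := by
  have hm : Measurable fun p : Shift d × (Edge d → unitInterval) =>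
      ∀ᶠ k in atTop, NoFlip p.1 p.2 k := by
    simp_rw [eventually_atTop]
    exact Measurable.exists fun a => Measurable.forall fun b =>
      Measurable.imp measurable_const (measurable_noFlip b)
  unfold base
  rw [Measure.ae_prod_iff_ae_ae (measurableSet_setOfPred.2 hm)]
  exact Filter.Eventually.of_forall fun s => ae_noFlip s

lemma ae_base_good : ∀ᵐ p ∂(base d), Good p.1 :=
  Measure.quasiMeasurePreserving_fst.ae ae_good

theorem law_percolates (hd : 2 ≤ d) : Percolates (law d) := by
  unfold Percolates law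
  rw [ae_map_iff measurable_X.aemeasurable
    (measurableSet_setOfPred.2 measurable_hasInfiniteCluster)]
  filter_upwards [ae_base_noFlip, ae_base_good] with p h1 h2
  exact percolates_det hd h2 h1

theorem law_thinning (p : unitInterval) (hp : (p : ℝ) < 1) :
    ∀ᵐ ω ∂(thinning (law d) p), ¬ HasInfiniteCluster ω := by
  have hmand : Measurable fun x : Config d × Config d => (fun e => x.1 e && x.2 e : Config d) := by
    rw [measurable_pi_iff]
    intro e
    have h1 : Measurable fun x : Config d × Config d => (x.1 e, x.2 e) := by fun_prop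
    exact (Measurable.of_discrete (f := fun q : Bool × Bool => q.1 && q.2)).comp h1
  unfold thinning
  rw [ae_map_iff hmand.aemeasurable
    (measurableSet_setOfPred.2 measurable_hasInfiniteCluster.not)]
  have hprod : (law d).prod (Measure.infinitePi fun _ : Edge d => bernoulliMeasure true false p)
      = ((base d).prod (Measure.infinitePi fun _ : Edge d => bernoulliMeasure true false p)).map
        (Prod.map (fun p => X p.1 p.2) id) := by
    unfold law
    rw [← Measure.map_prod_map _ _ measurable_X measurable_id, Measure.map_id]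
  have hm2 : MeasurableSet {x : Config d × Config d |
      ¬ HasInfiniteCluster (fun e => x.1 e && x.2 e : Config d)} :=
    measurableSet_setOfPred.2 (measurable_hasInfiniteCluster.not.comp hmand)
  have hm3 : Measurable (Prod.map (fun p : Shift d × (Edge d → unitInterval) => X p.1 p.2)
      (id : Config d → Config d)) := measurable_X.prodMap measurable_id
  rw [hprod, ae_map_iff hm3.aemeasurable hm2]
  refine (Measure.ae_prod_iff_ae_ae (hm3 hm2)).2 ?_
  filter_upwards [ae_base_noFlip, ae_base_good] with q h1 h2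
  filter_upwards [ae_frequently_zero p hp (F q.1) (2 * d) (card_F q.1) (F_escapes h2)] with V hV
  exact not_percolates_det h2 h1 hV

theorem law_pc : pc (law d) = 1 := by
  unfold pc
  apply le_antisymm
  · apply csSup_le
    · exact ⟨0, ⟨⟨le_rfl, zero_le_one⟩, law_thinning _ (by norm_num)⟩⟩
    · rintro p ⟨h, _⟩
      exact h.2
  · apply le_of_forall_lt
    intro q hq
    have hq' : max q 0 < 1 := max_lt hq one_pos
    obtain ⟨r, hr1, hr2⟩ := exists_between hq'
    have hr0 : 0 ≤ r := (le_max_right q 0).trans hr1.le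
    refine lt_of_lt_of_le ((le_max_left q 0).trans_lt hr1) ?_
    apply le_csSup
    · exact ⟨1, by rintro p ⟨h, _⟩; exact h.2⟩
    · exact ⟨⟨hr0, hr2.le⟩, law_thinning _ hr2⟩

/-- the action on shifts -/
noncomputable def shiftMap (σ : Equiv.Perm (Fin d)) (ε a : Fin d → ℤ) (s : Shift d) : Shift d :=
  fun i => (ε (σ.symm i) : ℤ_[3]) * (s (σ.symm i) - (a (σ.symm i) : ℤ_[3]))

lemma coordMap_mp (ε a : ℤ) (hε : ε = 1 ∨ ε = -1) :
    MeasurePreserving (fun t : ℤ_[3] => (ε : ℤ_[3]) * (t - (a : ℤ_[3]))) haar3 haar3 := by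
  rcases hε with rfl | rfl
  · simpa using measurePreserving_sub_right haar3 (a : ℤ_[3])
  · have h1 := measurePreserving_sub_right haar3 (a : ℤ_[3])
    have h2 := Measure.measurePreserving_neg haar3
    have h3 := h2.comp h1
    simpa [Function.comp_def] using h3

lemma shiftMap_mp (σ : Equiv.Perm (Fin d)) (ε a : Fin d → ℤ) (hε : ∀ j, ε j = 1 ∨ ε j = -1) :
    MeasurePreserving (shiftMap σ ε a) (shiftLaw d) (shiftLaw d) := by
  have h1 : MeasurePreserving
      (fun (s : Shift d) (j : Fin d) => (ε j : ℤ_[3]) * (s j - (a j : ℤ_[3])))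
      (shiftLaw d) (shiftLaw d) :=
    measurePreserving_pi (fun _ => haar3) (fun _ => haar3) fun j => coordMap_mp (ε j) (a j) (hε j)
  have h2 := measurePreserving_piCongrLeft (fun _ : Fin d => haar3) σ
  have h3 := h2.comp h1
  have e : (⇑(MeasurableEquiv.piCongrLeft (fun _ : Fin d => ℤ_[3]) σ) ∘
      (fun (s : Shift d) (j : Fin d) => (ε j : ℤ_[3]) * (s j - (a j : ℤ_[3])))) =
      shiftMap σ ε a := by
    funext s i
    simp only [Function.comp_apply, MeasurableEquiv.coe_piCongrLeft, shiftMap]
    rw [Equiv.piCongrLeft_apply]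
    simp only [eq_rec_constant]
  rw [← e]
  exact h3

section
variable (φ : lattice d ≃g lattice d) {σ : Equiv.Perm (Fin d)} {ε a : Fin d → ℤ}
  (hε : ∀ j, ε j = 1 ∨ ε j = -1) (hφ : ∀ x j, φ x j = a j + ε j * x (σ j))

include hε hφ

lemma z_map (s : Shift d) (e : Edge d) (j : Fin d) :
    ‖z s (φ.mapEdgeSet e).1 j‖ = ‖z (shiftMap σ ε a s) e.1 (σ j)‖ := by
  obtain ⟨e, he⟩ := e
  induction e using Sym2.ind with
  | _ x y =>
    have h1 : (φ.mapEdgeSet ⟨s(x, y), he⟩).1 = s(φ x, φ y) := rfl
    rw [h1]
    have h2 : z s s(φ x, φ y) j = (ε j : ℤ_[3]) * z (shiftMap σ ε a s) s(x, y) (σ j) := by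
      unfold z shiftMap
      simp only [mid_mk, hφ, Equiv.symm_apply_apply]
      push_cast
      have hsq : (ε j : ℤ_[3]) * (ε j : ℤ_[3]) = 1 := by
        rcases hε j with h | h <;> rw [h] <;> simp
      linear_combination (-2 * (a j : ℤ_[3]) + 2 * s j) * hsq
    rw [h2, norm_mul]
    have h3 : ‖((ε j : ℤ) : ℤ_[3])‖ = 1 := by
      rcases hε j with h | h <;> rw [h] <;> simp
    rw [h3, one_mul]

lemma dir_map (e : Edge d) (j : Fin d) :
    dir (φ.mapEdgeSet e).1 j ↔ dir e.1 (σ j) := by
  obtain ⟨e, he⟩ := e
  induction e using Sym2.ind with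
  | _ x y =>
    have h1 : (φ.mapEdgeSet ⟨s(x, y), he⟩).1 = s(φ x, φ y) := rfl
    rw [h1, dir_mk, dir_mk, hφ, hφ]
    rcases hε j with h | h <;> rw [h] <;> constructor <;> intro h2 h3 <;> apply h2 <;> omega

lemma skel_map (s : Shift d) (e : Edge d) :
    Skel s (φ.mapEdgeSet e).1 ↔ Skel (shiftMap σ ε a s) e.1 := by
  unfold Skel
  simp only [z_map φ hε hφ, dir_map φ hε hφ]
  constructor
  · intro h i hi j
    have := h (σ.symm i) (by rwa [Equiv.apply_symm_apply]) (σ.symm j)
    simpa using this
  · intro h i hi j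
    exact h _ hi _

lemma eps_map (s : Shift d) (e : Edge d) :
    eps s (φ.mapEdgeSet e).1 = eps (shiftMap σ ε a s) e.1 := by
  unfold eps
  simp only [z_map φ hε hφ]
  rw [Equiv.prod_comp σ (fun j => ‖z (shiftMap σ ε a s) e.1 j‖)]

lemma X_map (s : Shift d) (U : Edge d → unitInterval) (e : Edge d) :
    X s U (φ.mapEdgeSet e) = X (shiftMap σ ε a s) (fun f => U (φ.mapEdgeSet f)) e := by
  classical
  unfold X
  rw [eps_map φ hε hφ]
  congr 1
  exact decide_eq_decide.2 (skel_map φ hε hφ s e)

end

lemma unifE_mp (φ : lattice d ≃g lattice d) :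
    MeasurePreserving (fun (U : Edge d → unitInterval) (e : Edge d) => U (φ.mapEdgeSet e))
      (unifE d) (unifE d) := by
  refine ⟨by fun_prop, ?_⟩
  unfold unifE
  exact Measure.map_infinitePi_infinitePi_of_inj
    (P := fun _ : Edge d => (volume : Measure unitInterval)) φ.mapEdgeSet.injective

theorem law_invariant : IsInvariant (law d) := by
  intro φ
  obtain ⟨σ, ε, a, hε, hφ⟩ := aut_classification φ
  have hmp : MeasurePreserving (Prod.map (shiftMap σ ε a)
      (fun (U : Edge d → unitInterval) (e : Edge d) => U (φ.mapEdgeSet e))) (base d) (base d) :=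
    (shiftMap_mp σ ε a hε).prod (unifE_mp φ)
  have hm : Measurable fun (ω : Config d) (e : Edge d) => ω (φ.mapEdgeSet e) := by fun_prop
  unfold law
  rw [Measure.map_map hm measurable_X]
  have hfun : ((fun (ω : Config d) (e : Edge d) => ω (φ.mapEdgeSet e)) ∘
      fun p : Shift d × (Edge d → unitInterval) => X p.1 p.2) =
      (fun p : Shift d × (Edge d → unitInterval) => X p.1 p.2) ∘
      (Prod.map (shiftMap σ ε a)
      (fun (U : Edge d → unitInterval) (e : Edge d) => U (φ.mapEdgeSet e))) := by
    funext p e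
    exact X_map φ hε hφ p.1 p.2 e
  rw [hfun, ← Measure.map_map measurable_X hmp.measurable, hmp.map_eq]

/-- the sigma-algebra of one uniform variable -/
abbrev sig (e : Edge d) : MeasurableSpace (Edge d → unitInterval) :=
  MeasurableSpace.comap (fun U => U e) inferInstance

lemma sig_le (e : Edge d) : sig e ≤ (inferInstance : MeasurableSpace (Edge d → unitInterval)) :=
  (measurable_pi_apply e).comap_le

lemma iIndep_sig : iIndep (fun e : Edge d => sig e) (unifE d) := by
  have := iIndepFun_infinitePi (P := fun _ : Edge d => (volume : Measure unitInterval))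
    (X := fun _ u => u) (fun _ => measurable_id)
  exact this

lemma X_coord_measurable (s : Shift d) (f : Edge d) :
    Measurable[sig f] fun U : Edge d → unitInterval => X s U f := by
  classical
  have h : (fun U : Edge d → unitInterval => X s U f) =
      (fun u : unitInterval => xor (decide (Skel s f.1)) (decide ((u : ℝ) < eps s f.1))) ∘
        (fun U => U f) := rfl
  rw [h]
  have hg : Measurable (fun u : unitInterval =>
      xor (decide (Skel s f.1)) (decide ((u : ℝ) < eps s f.1))) := by
    have h1 : Measurable fun u : unitInterval => (u : ℝ) < eps s f.1 :=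
      measurableSet_setOfPred.1 (measurableSet_lt measurable_subtype_coe measurable_const)
    have h2 : Measurable fun u : unitInterval => decide ((u : ℝ) < eps s f.1) :=
      (measurable_from_top (f := fun q : Prop => decide q)).comp h1
    exact (Measurable.of_discrete (f := fun q : Bool => xor (decide (Skel s f.1)) q)).comp h2
  exact hg.comp (comap_measurable _)

lemma prob_coord_pos {s : Shift d} (hs : Good s) (e : Edge d) (b : Bool) :
    unifE d {U | X s U e = b} ≠ 0 := by
  classical
  have hflip : unifE d {U | (U e : ℝ) < eps s e.1} = ENNReal.ofReal (eps s e.1) :=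
    unifE_lt e _ (eps_nonneg _ _) ((eps_le_half _ _).trans (by norm_num))
  have hms : MeasurableSet {U : Edge d → unitInterval | (U e : ℝ) < eps s e.1} :=
    measurableSet_lt (measurable_subtype_coe.comp (measurable_pi_apply e)) measurable_const
  have h1 : unifE d {U | (U e : ℝ) < eps s e.1} ≠ 0 := by
    rw [hflip]
    simp only [ne_eq, ENNReal.ofReal_eq_zero, not_le]
    exact eps_pos hs _
  have h2 : unifE d {U | ¬ (U e : ℝ) < eps s e.1} ≠ 0 := by
    have : {U : Edge d → unitInterval | ¬ (U e : ℝ) < eps s e.1} =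
        {U | (U e : ℝ) < eps s e.1}ᶜ := rfl
    rw [this, prob_compl_eq_one_sub hms, hflip]
    intro h
    rw [tsub_eq_zero_iff_le] at h
    have h3 : ENNReal.ofReal (eps s e.1) ≤ ENNReal.ofReal (1 / 2) :=
      ENNReal.ofReal_le_ofReal (eps_le_half _ _)
    have h4 : ENNReal.ofReal (1 / 2) < 1 := by
      rw [← ENNReal.ofReal_one]
      exact (ENNReal.ofReal_lt_ofReal_iff one_pos).2 (by norm_num)
    exact absurd (h.trans h3) (not_le.2 h4)
  by_cases hb : decide (Skel s e.1) = b
  · intro h
    apply h2
    refine measure_mono_null ?_ h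
    intro U hU
    simp only [Set.mem_ofPred_eq] at hU ⊢
    unfold X
    rw [decide_eq_false hU, hb]
    simp
  · intro h
    apply h1
    refine measure_mono_null ?_ h
    intro U hU
    simp only [Set.mem_ofPred_eq] at hU ⊢
    unfold X
    rw [decide_eq_true hU]
    revert hb
    cases b <;> cases decide (Skel s e.1) <;> simp

lemma otherEdges_le (e : Edge d) :
    otherEdges e ≤ (inferInstance : MeasurableSpace (Config d)) := by
  unfold otherEdges
  apply Measurable.comap_le
  fun_prop

lemma measurableSet_coord (e : Edge d) (b : Bool) : MeasurableSet {ω : Config d | ω e = b} := by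
  have h : Measurable fun ω : Config d => ω e := measurable_pi_apply e
  exact h (measurableSet_singleton b)

lemma law_null_of_inter_null (e : Edge d) (b : Bool) (A : Set (Config d))
    (hA : MeasurableSet[otherEdges e] A) (h : law d (A ∩ {ω | ω e = b}) = 0) : law d A = 0 := by
  have hAm : MeasurableSet A := otherEdges_le e A hA
  have hbm : MeasurableSet {ω : Config d | ω e = b} := measurableSet_coord e b
  unfold law at h ⊢
  rw [Measure.map_apply measurable_X (hAm.inter hbm)] at h
  rw [Measure.map_apply measurable_X hAm]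
  unfold base at h ⊢
  rw [Measure.measure_prod_null (measurable_X (hAm.inter hbm))] at h
  rw [Measure.measure_prod_null (measurable_X hAm)]
  filter_upwards [h, ae_good] with s hs hgood
  have hindep : Indep (⨆ f ∈ ({e} : Set (Edge d)), sig f) (⨆ f ∈ ({e} : Set (Edge d))ᶜ, sig f)
      (unifE d) := indep_biSup_compl sig_le iIndep_sig {e}
  have h1 : MeasurableSet[⨆ f ∈ ({e} : Set (Edge d)), sig f] {U | X s U e = b} := by
    have : sig e ≤ ⨆ f ∈ ({e} : Set (Edge d)), sig f :=
      le_iSup₂ (f := fun f (_ : f ∈ ({e} : Set (Edge d))) => sig f) e (Set.mem_singleton e)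
    apply this
    exact X_coord_measurable s e (measurableSet_singleton b)
  have h2 : MeasurableSet[⨆ f ∈ ({e} : Set (Edge d))ᶜ, sig f] {U | X s U ∈ A} := by
    obtain ⟨A0, hA0, rfl⟩ := hA
    have hmeas : @Measurable _ _ (⨆ f ∈ ({e} : Set (Edge d))ᶜ, sig f) _
        (fun (U : Edge d → unitInterval) (f : {f : Edge d // f ≠ e}) => X s U f) := by
      refine @measurable_pi_lambda _ _ _ (⨆ f ∈ ({e} : Set (Edge d))ᶜ, sig f) _ _ ?_
      intro f
      have : sig f.1 ≤ ⨆ f ∈ ({e} : Set (Edge d))ᶜ, sig f :=
        le_iSup₂ (f := fun f (_ : f ∈ ({e} : Set (Edge d))ᶜ) => sig f) f.1 f.2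
      exact (X_coord_measurable s f.1).mono this le_rfl
    exact hmeas hA0
  have h3 := (Indep_iff _ _ _).1 hindep _ _ h1 h2
  have h4 : unifE d ({U | X s U e = b} ∩ {U | X s U ∈ A}) = 0 := by
    have : {U | X s U e = b} ∩ {U | X s U ∈ A} = Prod.mk s ⁻¹'
        ((fun p : Shift d × (Edge d → unitInterval) => X p.1 p.2) ⁻¹' (A ∩ {ω | ω e = b})) := by
      ext U
      simp only [Set.mem_inter_iff, Set.mem_ofPred_eq, Set.mem_preimage]
      exact and_comm
    rw [this]
    exact hs
  rw [h4] at h3
  have h5 := (mul_eq_zero.1 h3.symm).resolve_left (prob_coord_pos hgood e b)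
  exact h5

theorem law_finiteEnergy : HasFiniteEnergy (law d) := by
  intro e
  have hm := otherEdges_le e
  set S : Set (Config d) := {ω : Config d | ω e = true} with hS
  have hSm : MeasurableSet S := measurableSet_coord e true
  set f : Config d → ℝ := Set.indicator S (fun _ => (1 : ℝ)) with hf
  have hfi : Integrable f (law d) := (integrable_const (1 : ℝ)).indicator hSm
  set g := (law d)[f | otherEdges e] with hg
  have hgm : Measurable[otherEdges e] g := stronglyMeasurable_condExp.measurable
  have hgi : Integrable g (law d) := integrable_condExp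
  have hint : ∀ A, MeasurableSet[otherEdges e] A →
      ∫ ω in A, g ω ∂(law d) = (law d).real (A ∩ S) := by
    intro A hA
    rw [hg, setIntegral_condExp hm hfi hA, hf, setIntegral_indicator hSm]
    simp
  -- lower bound
  have hlow : law d {ω | g ω ≤ 0} = 0 := by
    have hA : MeasurableSet[otherEdges e] {ω | g ω ≤ 0} :=
      @measurableSet_le _ _ _ _ _ (otherEdges e) _ _ _ _ _ hgm measurable_const
    apply law_null_of_inter_null e true _ hA
    have h1 := hint _ hA
    have h2 : ∫ ω in {ω | g ω ≤ 0}, g ω ∂(law d) ≤ 0 :=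
      setIntegral_nonpos (hm _ hA) fun ω hω => hω
    have h3 : (law d).real ({ω | g ω ≤ 0} ∩ S) = 0 :=
      le_antisymm (h1 ▸ h2) measureReal_nonneg
    rwa [measureReal_eq_zero_iff] at h3
  have hhigh : law d {ω | 1 ≤ g ω} = 0 := by
    have hA : MeasurableSet[otherEdges e] {ω | 1 ≤ g ω} :=
      @measurableSet_le _ _ _ _ _ (otherEdges e) _ _ _ _ _ measurable_const hgm
    apply law_null_of_inter_null e false _ hA
    have h1 := hint _ hA
    have h2 : (law d).real {ω | 1 ≤ g ω} ≤ ∫ ω in {ω | 1 ≤ g ω}, g ω ∂(law d) := by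
      have : ∫ ω in {ω | 1 ≤ g ω}, (1 : ℝ) ∂(law d) ≤ ∫ ω in {ω | 1 ≤ g ω}, g ω ∂(law d) := by
        apply setIntegral_mono_on (integrable_const _).integrableOn hgi.integrableOn (hm _ hA)
        intro ω hω; exact hω
      simpa using this
    rw [h1] at h2
    have h3 : ({ω | 1 ≤ g ω} ∩ {ω : Config d | ω e = false}) = {ω | 1 ≤ g ω} \ S := by
      ext ω
      simp only [hS, Set.mem_inter_iff, Set.mem_ofPred_eq, Set.mem_sdiff, Bool.not_eq_true]
    rw [h3]
    have h4 : (law d).real ({ω | 1 ≤ g ω} \ S) = 0 := by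
      have := measureReal_inter_add_sdiff (μ := law d) (s := {ω | 1 ≤ g ω}) hSm
      have h5 : 0 ≤ (law d).real ({ω | 1 ≤ g ω} \ S) := measureReal_nonneg
      linarith
    rwa [measureReal_eq_zero_iff] at h4
  have h1 : ∀ᵐ ω ∂(law d), ¬ g ω ≤ 0 := by rw [ae_iff]; simpa using hlow
  have h2 : ∀ᵐ ω ∂(law d), ¬ 1 ≤ g ω := by rw [ae_iff]; simpa using hhigh
  filter_upwards [h1, h2] with ω h3 h4
  exact ⟨not_le.1 h3, not_le.1 h4⟩

/-- For every `d ≥ 2` there is an automorphism invariant bond percolation on `ℤ^d` which has finite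
energy, percolates almost surely, and has `p_c = 1`; the last clause spells out what `p_c = 1` means:
for every `p < 1` the `p`-thinning almost surely has no infinite cluster. -/
theorem result (d : ℕ) (hd : 2 ≤ d) :
    ∃ μ : Measure (Config d), IsProbabilityMeasure μ ∧ IsInvariant μ ∧ HasFiniteEnergy μ ∧
      Percolates μ ∧ pc μ = 1 ∧
      ∀ p : unitInterval, (p : ℝ) < 1 → ∀ᵐ ω ∂(thinning μ p), ¬ HasInfiniteCluster ω :=
  ⟨law d, inferInstance, law_invariant, law_finiteEnergy, law_percolates hd, law_pc,
    fun p hp => law_thinning p hp⟩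

end Pool.Agent.Results.MP_cc1c4a_pr.FiniteEnergyPcOne
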